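import Mathlib

set_option autoImplicit false

open Filter Topology

namespace Pool.Agent.Lib.MP_74fee8_an

section BanachSpec

variable {𝔅 : Type} [NormedRing 𝔅] [NormedAlgebra ℂ 𝔅] [CompleteSpace 𝔅]

omit [NormedAlgebra ℂ 𝔅] [CompleteSpace 𝔅] in
/-- quasinilpotency through the growth of powers -/
def Qn (a : 𝔅) : Prop := ∀ ε > 0, ∃ N : ℕ, ∀ k ≥ N, ‖a ^ k‖ ≤ ε ^ k

theorem qn_of_spectrum {a : 𝔅} (h : spectrum ℂ a ⊆ {0}) : Qn a := by
  intro ε hε
  have h1 : spectralRadius ℂ a = 0 := by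
    rw [spectralRadius]
    apply le_antisymm _ bot_le
    refine iSup₂_le fun k hk => ?_
    have : k = 0 := h hk
    rw [this]
    simp
  have h2 := spectrum.pow_norm_pow_one_div_tendsto_nhds_spectralRadius a
  rw [h1] at h2
  have h3 : ∀ᶠ n : ℕ in atTop, ENNReal.ofReal (‖a ^ n‖ ^ (1 / n : ℝ)) < ENNReal.ofReal ε :=
    h2.eventually (Iio_mem_nhds (ENNReal.ofReal_pos.2 hε))
  obtain ⟨N, hN⟩ := eventually_atTop.1 (h3.and (eventually_ge_atTop 1))
  refine ⟨N, fun k hk => ?_⟩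
  obtain ⟨h4, h5⟩ := hN k hk
  rw [ENNReal.ofReal_lt_ofReal_iff hε] at h4
  have h6 : (‖a ^ k‖ ^ (1 / k : ℝ)) ^ k = ‖a ^ k‖ := by
    rw [← Real.rpow_natCast, ← Real.rpow_mul (norm_nonneg _), one_div,
      inv_mul_cancel₀ (by exact_mod_cast (by omega : k ≠ 0)), Real.rpow_one]
  rw [← h6]
  exact pow_le_pow_left₀ (Real.rpow_nonneg (norm_nonneg _) _) h4.le k

theorem isUnit_one_sub_of_pow {x : 𝔅} {k : ℕ} (h : ‖x ^ k‖ < 1) : IsUnit (1 - x) := by
  have h1 : IsUnit (1 - x ^ k) := isUnit_one_sub_of_norm_lt_one h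
  have h2 : (1 - x) * ∑ i ∈ Finset.range k, x ^ i = 1 - x ^ k := mul_neg_geom_sum x k
  have h3 : Commute (1 - x) (∑ i ∈ Finset.range k, x ^ i) := by
    refine Commute.sub_left (Commute.one_left _) ?_
    exact Commute.sum_right _ _ _ (fun i _ => (Commute.refl x).pow_right i)
  rw [← h2, h3.isUnit_mul_iff] at h1
  exact h1.1

theorem isUnit_of_qn {a : 𝔅} (h : Qn a) {z : ℂ} (hz : z ≠ 0) : IsUnit (algebraMap ℂ 𝔅 z - a) := by
  have h1 : 0 < ‖z‖ := norm_pos_iff.2 hz
  obtain ⟨N, hN⟩ := h (‖z‖ / 2) (by positivity)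
  have h2 := hN (N + 1) (by omega)
  have h3 : ‖(z⁻¹ • a) ^ (N + 1)‖ < 1 := by
    rw [smul_pow, norm_smul, norm_pow, norm_inv]
    calc ‖z‖⁻¹ ^ (N + 1) * ‖a ^ (N + 1)‖ ≤ ‖z‖⁻¹ ^ (N + 1) * (‖z‖ / 2) ^ (N + 1) := by gcongr
      _ = (1 / 2) ^ (N + 1) := by rw [← mul_pow]; congr 1; field_simp
      _ < 1 := pow_lt_one₀ (by norm_num) (by norm_num) (by omega)
  have h4 := isUnit_one_sub_of_pow h3
  have h5 : algebraMap ℂ 𝔅 z - a = algebraMap ℂ 𝔅 z * (1 - z⁻¹ • a) := by
    rw [mul_sub, mul_one, Algebra.algebraMap_eq_smul_one, smul_mul_assoc, one_mul, smul_smul,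
      mul_inv_cancel₀ hz, one_smul]
  rw [h5]
  exact ((isUnit_iff_ne_zero.2 hz).map (algebraMap ℂ 𝔅)).mul h4

theorem spectrum_of_qn {a : 𝔅} (h : Qn a) : spectrum ℂ a ⊆ {0} := by
  intro z hz
  by_contra hz0
  exact hz (isUnit_of_qn h hz0)

theorem spectrum_subset_of_left {a : 𝔅} {F : Set ℂ} (hF : F.Finite)
    (h : ∀ z, z ∉ F → ∃ v, v * (algebraMap ℂ 𝔅 z - a) = 1) : spectrum ℂ a ⊆ F := by
  have hconn : IsPreconnected Fᶜ := by
    refine (hF.countable.isConnected_compl_of_one_lt_rank ?_).isPreconnected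
    rw [Complex.rank_real_complex]
    norm_num
  have hsub : Fᶜ ⊆ resolventSet ℂ a := by
    apply hconn.subset_of_closure_inter_subset (spectrum.isOpen_resolventSet a)
    · -- a large point
      have hinf : (Fᶜ ∩ (Metric.closedBall (0 : ℂ) (‖a‖ * ‖(1 : 𝔅)‖))ᶜ).Nonempty := by
        rw [← Set.compl_union]
        by_contra hcon
        rw [Set.not_nonempty_iff_eq_empty, Set.compl_empty_iff] at hcon
        have hb : Bornology.IsBounded (Set.univ : Set ℂ) := by
          rw [← hcon]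
          exact hF.isBounded.union Metric.isBounded_closedBall
        exact NormedSpace.unbounded_univ ℂ ℂ hb
      obtain ⟨z, hz1, hz2⟩ := hinf
      refine ⟨z, hz1, spectrum.mem_resolventSet_of_norm_lt_mul ?_⟩
      rw [Set.mem_compl_iff, mem_closedBall_zero_iff, not_le] at hz2
      exact hz2
    · rintro z ⟨hz1, hz2⟩
      obtain ⟨v, hv⟩ := h z hz2
      have hcont : Continuous fun y : ℂ => ‖v * (algebraMap ℂ 𝔅 y - a) - 1‖ := by
        have : Continuous (algebraMap ℂ 𝔅) := continuous_algebraMap ℂ 𝔅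
        fun_prop
      have hn : {y : ℂ | ‖v * (algebraMap ℂ 𝔅 y - a) - 1‖ < 1} ∈ 𝓝 z := by
        have h1 : (fun y : ℂ => ‖v * (algebraMap ℂ 𝔅 y - a) - 1‖) ⁻¹' (Set.Iio 1) ∈ 𝓝 z := by
          apply hcont.continuousAt.preimage_mem_nhds
          rw [hv, sub_self, norm_zero]
          exact Iio_mem_nhds one_pos
        exact h1
      obtain ⟨y, hy1, hy2⟩ := mem_closure_iff_nhds.1 hz1 _ hn
      have hy1' : ‖v * (algebraMap ℂ 𝔅 y - a) - 1‖ < 1 := hy1
      have hy2' : IsUnit (algebraMap ℂ 𝔅 y - a) := hy2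
      have h2 : IsUnit (v * (algebraMap ℂ 𝔅 y - a)) := by
        have h3 := isUnit_one_sub_of_norm_lt_one
          (x := 1 - v * (algebraMap ℂ 𝔅 y - a)) (by rw [norm_sub_rev]; exact hy1')
        rwa [sub_sub_cancel] at h3
      obtain ⟨w, hw⟩ := hy2'
      have h4 : IsUnit v := by
        have h5 : v = (v * (algebraMap ℂ 𝔅 y - a)) * (↑w⁻¹ : 𝔅) := by
          rw [mul_assoc, ← hw, Units.mul_inv, mul_one]
        rw [h5]
        exact h2.mul (Units.isUnit _)
      obtain ⟨v', hv'⟩ := h4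
      have h6 : algebraMap ℂ 𝔅 z - a = (↑v'⁻¹ : 𝔅) := by
        rw [← hv'] at hv
        rw [← one_mul (algebraMap ℂ 𝔅 z - a), ← Units.inv_mul v', mul_assoc, hv, mul_one]
      show IsUnit (algebraMap ℂ 𝔅 z - a)
      rw [h6]
      exact Units.isUnit _
  intro z hz
  by_contra hzF
  exact hz (hsub hzF)

/-- Quasinilpotency is a closed condition at elements with finite spectrum. -/
theorem spectrum_zero_of_approx {a : 𝔅} {F : Set ℂ} (hF : F.Finite) (ha : spectrum ℂ a ⊆ F)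
    (h : ∀ ε > 0, ∃ a', ‖a - a'‖ < ε ∧ spectrum ℂ a' ⊆ {0}) : spectrum ℂ a ⊆ {0} := by
  intro z0 hz0
  by_contra hne
  have hne0 : z0 ≠ 0 := hne
  have hF' : (insert 0 F \ {z0} : Set ℂ).Finite := (hF.insert 0).subset Set.diff_subset
  have hnhds : (insert 0 F \ {z0} : Set ℂ)ᶜ ∈ 𝓝 z0 :=
    hF'.isClosed.isOpen_compl.mem_nhds (fun hmem => hmem.2 rfl)
  obtain ⟨r, hr, hball⟩ := Metric.nhds_basis_closedBall.mem_iff.1 hnhds
  have hsphere : ∀ z ∈ Metric.sphere z0 r, z ∈ resolventSet ℂ a := by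
    intro z hz
    by_contra hzs
    have h1 : z ∈ F := ha hzs
    have h2 : z ≠ z0 := by
      rintro rfl
      rw [mem_sphere_iff_norm, sub_self, norm_zero] at hz
      exact hr.ne hz
    exact hball (Metric.sphere_subset_closedBall hz) ⟨Set.mem_insert_of_mem _ h1, h2⟩
  have hcont : ContinuousOn (fun z => resolvent a z) (Metric.sphere z0 r) := by
    intro z hz
    exact (spectrum.hasDerivAt_resolvent_const_left (hsphere z hz)).continuousAt.continuousWithinAt
  obtain ⟨C, hC⟩ := (isCompact_sphere z0 r).exists_bound_of_continuousOn hcont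
  have hC0 : 0 ≤ max C 0 := le_max_right _ _
  set D := max C 0 with hD
  obtain ⟨a', ha'1, ha'2⟩ := h (1 / (4 * (D + 1))) (by positivity)
  have hres' : ∀ z, z ≠ 0 → z ∈ resolventSet ℂ a' := by
    intro z hz
    by_contra hzs
    exact hz (ha'2 hzs)
  have hsmall : ‖a - a'‖ * (D + 1) ≤ 1 / 4 := by
    rw [lt_div_iff₀ (by positivity)] at ha'1
    linarith
  -- bound on the sphere
  have hb : ∀ z ∈ Metric.sphere z0 r, ‖resolvent a' z‖ ≤ 2 * D := by
    intro z hz
    have hz0' : z ≠ 0 := by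
      rintro rfl
      refine hball (Metric.sphere_subset_closedBall hz) ⟨Set.mem_insert _ _, fun h => hne0 ?_⟩
      exact (Set.mem_singleton_iff.1 h).symm
    have h1 : IsUnit (algebraMap ℂ 𝔅 z - a) := hsphere z hz
    have h2 : IsUnit (algebraMap ℂ 𝔅 z - a') := hres' z hz0'
    have h3 : resolvent a' z = resolvent a z + resolvent a' z * (a' - a) * resolvent a z := by
      have e1 : resolvent a' z * (algebraMap ℂ 𝔅 z - a') = 1 := Ring.inverse_mul_cancel _ h2
      have e2 : (algebraMap ℂ 𝔅 z - a) * resolvent a z = 1 := Ring.mul_inverse_cancel _ h1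
      have e3 : a' - a = (algebraMap ℂ 𝔅 z - a) - (algebraMap ℂ 𝔅 z - a') := by abel
      rw [e3, mul_sub, sub_mul, e1, one_mul, mul_assoc, e2, mul_one]
      abel
    have h4 : ‖resolvent a z‖ ≤ D := (hC z hz).trans (le_max_left _ _)
    have h5 : ‖resolvent a' z‖ ≤ D + ‖resolvent a' z‖ * (1 / 4) := by
      calc ‖resolvent a' z‖ = ‖resolvent a z + resolvent a' z * (a' - a) * resolvent a z‖ := by
            rw [← h3]
        _ ≤ ‖resolvent a z‖ + ‖resolvent a' z * (a' - a) * resolvent a z‖ := norm_add_le _ _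
        _ ≤ D + ‖resolvent a' z‖ * ‖a' - a‖ * ‖resolvent a z‖ := by
            gcongr
            exact (norm_mul_le _ _).trans (mul_le_mul_of_nonneg_right (norm_mul_le _ _)
              (norm_nonneg _))
        _ ≤ D + ‖resolvent a' z‖ * ‖a' - a‖ * (D + 1) := by
            gcongr
            linarith
        _ = D + ‖resolvent a' z‖ * (‖a - a'‖ * (D + 1)) := by rw [norm_sub_rev a' a]; ring
        _ ≤ D + ‖resolvent a' z‖ * (1 / 4) := by gcongr
    linarith
  have hdiff : DiffContOnCl ℂ (fun z => resolvent a' z) (Metric.ball z0 r) := by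
    apply DifferentiableOn.diffContOnCl
    intro z hz
    have hz' : z ∈ Metric.closedBall z0 r := Metric.closure_ball_subset_closedBall hz
    have hz0' : z ≠ 0 := by
      rintro rfl
      refine hball hz' ⟨Set.mem_insert _ _, fun h => hne0 ?_⟩
      exact (Set.mem_singleton_iff.1 h).symm
    exact (spectrum.hasDerivAt_resolvent_const_left
      (hres' z hz0')).differentiableAt.differentiableWithinAt
  have hmax : ‖resolvent a' z0‖ ≤ 2 * D := by
    refine Complex.norm_le_of_forall_mem_frontier_norm_le Metric.isBounded_ball hdiff ?_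
      (subset_closure (Metric.mem_ball_self hr))
    intro z hz
    exact hb z (Metric.frontier_ball_subset_sphere hz)
  -- hence `z0` is in the resolvent set of `a`
  apply hz0
  have h1 : IsUnit (algebraMap ℂ 𝔅 z0 - a') := hres' z0 hne0
  have e1 : (algebraMap ℂ 𝔅 z0 - a') * resolvent a' z0 = 1 := Ring.mul_inverse_cancel _ h1
  have h2 : algebraMap ℂ 𝔅 z0 - a =
      (algebraMap ℂ 𝔅 z0 - a') * (1 - resolvent a' z0 * (a - a')) := by
    rw [mul_sub, mul_one, ← mul_assoc, e1, one_mul]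
    abel
  show IsUnit (algebraMap ℂ 𝔅 z0 - a)
  rw [h2]
  refine h1.mul (isUnit_one_sub_of_norm_lt_one ?_)
  calc ‖resolvent a' z0 * (a - a')‖ ≤ ‖resolvent a' z0‖ * ‖a - a'‖ := norm_mul_le _ _
    _ ≤ (2 * (D + 1)) * ‖a - a'‖ := by gcongr; linarith
    _ = 2 * (‖a - a'‖ * (D + 1)) := by ring
    _ ≤ 2 * (1 / 4) := by gcongr
    _ < 1 := by norm_num

end BanachSpec

end Pool.Agent.Lib.MP_74fee8_an
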