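import Pool.Agent.Lib.MP_74fee8_an.Basic

set_option autoImplicit false

open Filter Topology

namespace Pool.Agent.Lib.MP_74fee8_an

/-- The separating space of a map `T : A → B` of topological groups: all limits in `B` of values
of `T` along null families in `A`. -/
def Sep {A B : Type} [TopologicalSpace A] [Zero A] [TopologicalSpace B] (T : A → B) : Set B :=
  {b | ∀ U ∈ 𝓝 (0 : A), ∀ V ∈ 𝓝 b, ∃ x ∈ U, T x ∈ V}

section ClosedGraph

variable {A : Type} [NonUnitalRing A] [Module ℂ A] [IsScalarTower ℂ A A] [SMulCommClass ℂ A A]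
  [UniformSpace A] [IsUniformAddGroup A] [IsTopologicalRing A] [ContinuousSMul ℂ A]
  [CompleteSpace A] [T2Space A]
variable {B : Type} [NonUnitalRing B] [Module ℂ B] [IsScalarTower ℂ B B] [SMulCommClass ℂ B B]
  [UniformSpace B] [IsUniformAddGroup B] [IsTopologicalRing B] [ContinuousSMul ℂ B]
  [CompleteSpace B] [T2Space B]

omit [IsScalarTower ℂ A A] [SMulCommClass ℂ A A] [IsTopologicalRing A] [T2Space A]
  [IsScalarTower ℂ B B] [SMulCommClass ℂ B B] [UniformSpace B] [IsUniformAddGroup B]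
  [IsTopologicalRing B] [ContinuousSMul ℂ B] [CompleteSpace B] [T2Space B] in
theorem almost_open {p : ℕ → Seminorm ℂ A} (hp : WithSeminorms p) (T : A →ₗ[ℂ] B)
    (q : Seminorm ℂ B) {r : ℝ} (hr : 0 < r) :
    ∃ U ∈ 𝓝 (0 : A), U ⊆ closure {x : A | q (T x) ≤ r} := by
  have hB : BaireSpace A := baireSpace hp
  obtain ⟨k, hk⟩ : ∃ k : ℕ,
      (interior (closure {x : A | q (T x) ≤ (k + 1) * (r / 2)})).Nonempty := by
    apply nonempty_interior_of_iUnion_of_closed
    · intro k
      exact isClosed_closure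
    · rw [Set.eq_univ_iff_forall]
      intro x
      obtain ⟨k, hk⟩ := exists_nat_ge (q (T x) / (r / 2))
      refine Set.mem_iUnion.2 ⟨k, subset_closure ?_⟩
      show q (T x) ≤ (k + 1) * (r / 2)
      rw [div_le_iff₀ (by positivity)] at hk
      nlinarith
  obtain ⟨x0, hx0⟩ := hk
  have hK : (0 : ℝ) < k + 1 := by positivity
  have hKc : ((k : ℂ) + 1) ≠ 0 := by exact_mod_cast hK.ne'
  refine ⟨{x | x0 + ((k : ℂ) + 1) • x ∈
    interior (closure {x : A | q (T x) ≤ (k + 1) * (r / 2)})}, ?_, ?_⟩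
  · have hc : Continuous fun x : A => x0 + ((k : ℂ) + 1) • x :=
      continuous_const.add (continuous_const_smul _)
    apply hc.continuousAt.preimage_mem_nhds
    simp only [smul_zero, add_zero]
    exact isOpen_interior.mem_nhds hx0
  · intro x hx
    have h1 := interior_subset hx
    have h2 := interior_subset hx0
    have h3 : (((k : ℂ) + 1)⁻¹) • ((x0 + ((k : ℂ) + 1) • x) - x0) ∈
        closure {x : A | q (T x) ≤ r} := by
      have hc : Continuous (Function.uncurry fun a b : A => (((k : ℂ) + 1)⁻¹) • (a - b)) :=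
        (continuous_fst.sub continuous_snd).const_smul _
      refine map_mem_closure₂ (f := fun a b : A => (((k : ℂ) + 1)⁻¹) • (a - b)) hc h1 h2 ?_
      intro a ha b hb
      simp only [Set.mem_ofPred_eq] at ha hb ⊢
      rw [map_smul, map_smul_eq_mul, map_sub]
      have h4 := map_sub_le_add q (T a) (T b)
      have h5 : ‖(((k : ℂ) + 1)⁻¹)‖ = ((k : ℝ) + 1)⁻¹ := by
        rw [norm_inv]
        congr 1
        have : ((k : ℂ) + 1) = (((k : ℝ) + 1 : ℝ) : ℂ) := by push_cast; ring
        rw [this, Complex.norm_real, Real.norm_of_nonneg hK.le]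
      rw [h5, inv_mul_le_iff₀ hK]
      linarith
    have h4 : (((k : ℂ) + 1)⁻¹) • ((x0 + ((k : ℂ) + 1) • x) - x0) = x := by
      rw [add_sub_cancel_left, smul_smul, inv_mul_cancel₀ hKc, one_smul]
    rwa [h4] at h3

omit [IsScalarTower ℂ A A] [SMulCommClass ℂ A A] [IsTopologicalRing A] [T2Space A]
  [IsScalarTower ℂ B B] [SMulCommClass ℂ B B]
  [IsTopologicalRing B] [ContinuousSMul ℂ B] [T2Space B] in
/-- Modulo the separating space a linear map between Frechet spaces is continuous. -/
theorem dist_sep_two {p : ℕ → Seminorm ℂ A} (hp : WithSeminorms p) (hpm : Monotone p)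
    {q : ℕ → Seminorm ℂ B} (hq : WithSeminorms q) (hqm : Monotone q)
    (T : A →ₗ[ℂ] B) (m : ℕ) :
    ∀ᶠ z in 𝓝 (0 : A), ∃ s ∈ Sep T, q m (T z - s) ≤ 2 := by
  have hU : ∀ j : ℕ, ∃ U ∈ 𝓝 (0 : A), U ⊆ closure {x : A | q (m + j) (T x) ≤ (1 / 2 : ℝ) ^ j} :=
    fun j => almost_open hp T (q (m + j)) (by positivity)
  choose U hU0 hUs using hU
  set G : ℕ → Set A := fun j => U j ∩ {x | p j x < (1 / 2 : ℝ) ^ j} with hG
  have hGn : ∀ j, G j ∈ 𝓝 (0 : A) := fun j =>
    inter_mem (hU0 j) (ball_mem_nhds hp j (by positivity))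
  have step : ∀ j z, z ∈ G j → ∃ x, q (m + j) (T x) ≤ (1 / 2 : ℝ) ^ j ∧ z - x ∈ G (j + 1) := by
    intro j z hz
    have h1 := hUs j hz.1
    rw [mem_closure_iff_nhds] at h1
    have h2 : {x | z - x ∈ G (j + 1)} ∈ 𝓝 z := by
      have hc : Continuous fun x : A => z - x := continuous_const.sub continuous_id
      apply hc.continuousAt.preimage_mem_nhds
      simp only [sub_self]
      exact hGn (j + 1)
    obtain ⟨x, hx1, hx2⟩ := h1 _ h2
    exact ⟨x, hx2, hx1⟩
  choose! x hx1 hx2 using step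
  filter_upwards [hGn 0] with z0 hz0
  let z : ℕ → A := fun n => Nat.rec z0 (fun j z => z - x j z) n
  have hz1 : ∀ j, z (j + 1) = z j - x j (z j) := fun j => rfl
  have hz00 : z 0 = z0 := rfl
  have hzG : ∀ j, z j ∈ G j := by
    intro j
    induction j with
    | zero => exact hz0
    | succ j ih => rw [hz1]; exact hx2 j _ ih
  obtain ⟨y, hy⟩ : ∃ y, Tendsto (fun j => T (z0 - z j)) atTop (𝓝 y) := by
    apply exists_lim hq
    intro i
    refine ⟨i, fun k hk => ?_⟩
    have h1 : T (z0 - z (k + 1)) - T (z0 - z k) = T (x k (z k)) := by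
      rw [← map_sub, hz1]; congr 1; abel
    rw [h1]
    exact (hqm (show i ≤ m + k by omega) _).trans (hx1 k _ (hzG k))
  have hb : ∀ j, q m (T (z0 - z j)) ≤ 2 - 2 * (1 / 2 : ℝ) ^ j := by
    intro j
    induction j with
    | zero => simp [hz00]
    | succ j ih =>
      have h1 : T (z0 - z (j + 1)) = T (z0 - z j) + T (x j (z j)) := by
        rw [← map_add, hz1]; congr 1; abel
      rw [h1]
      refine (map_add_le_add _ _ _).trans ?_
      have h2 := (hqm (show m ≤ m + j by omega) (T (x j (z j)))).trans (hx1 j _ (hzG j))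
      rw [pow_succ]
      linarith
  have hy2 : q m y ≤ 2 := by
    have hc : Continuous (q m) := hq.continuous_seminorm m
    refine le_of_tendsto ((hc.tendsto y).comp hy) ?_
    refine Eventually.of_forall fun j => ?_
    have : (0 : ℝ) < (1 / 2) ^ j := by positivity
    have := hb j
    simp only [Function.comp_apply]
    linarith
  have hz_lim : Tendsto z atTop (𝓝 0) := by
    rw [hp.tendsto_nhds]
    intro i ε hε
    obtain ⟨M, hM⟩ := exists_pow_lt_of_lt_one hε (show (1 / 2 : ℝ) < 1 by norm_num)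
    filter_upwards [eventually_ge_atTop (max i M)] with j hj
    rw [sub_zero]
    have h1 : i ≤ j := le_trans (le_max_left _ _) hj
    have h2 : M ≤ j := le_trans (le_max_right _ _) hj
    calc p i (z j) ≤ p j (z j) := hpm h1 _
      _ < (1 / 2) ^ j := (hzG j).2
      _ ≤ (1 / 2) ^ M := pow_le_pow_of_le_one (by norm_num) (by norm_num) h2
      _ < ε := hM
  have hTz : Tendsto (fun j => T (z j)) atTop (𝓝 (T z0 - y)) := by
    have h1 : (fun j => T (z j)) = fun j => T z0 - T (z0 - z j) := by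
      funext j
      rw [← map_sub]; congr 1; abel
    rw [h1]
    exact tendsto_const_nhds.sub hy
  have hsep : T z0 - y ∈ Sep T := by
    intro U' hU' V hV
    obtain ⟨j, hj1, hj2⟩ := ((hz_lim.eventually hU').and (hTz.eventually hV)).exists
    exact ⟨z j, hj1, hj2⟩
  exact ⟨T z0 - y, hsep, by rw [sub_sub_cancel]; exact hy2⟩

omit [IsScalarTower ℂ A A] [SMulCommClass ℂ A A] [IsTopologicalRing A] [T2Space A]
  [IsScalarTower ℂ B B] [SMulCommClass ℂ B B]
  [IsTopologicalRing B] [ContinuousSMul ℂ B] [T2Space B] in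
/-- The closed graph theorem for Frechet spaces, in terms of the separating space. -/
theorem continuous_of_sep {p : ℕ → Seminorm ℂ A} (hp : WithSeminorms p) (hpm : Monotone p)
    {q : ℕ → Seminorm ℂ B} (hq : WithSeminorms q) (hqm : Monotone q)
    (T : A →ₗ[ℂ] B) (h : ∀ b ∈ Sep T, b = 0) : Continuous T := by
  have main : ∀ m, ∀ᶠ z in 𝓝 (0 : A), q m (T z) ≤ 2 := by
    intro m
    filter_upwards [dist_sep_two hp hpm hq hqm T m] with z hz
    obtain ⟨s, hs, hs2⟩ := hz
    rwa [h s hs, sub_zero] at hs2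
  apply continuous_of_continuousAt_zero T
  rw [ContinuousAt, map_zero, hq.tendsto_nhds]
  intro i ε hε
  have h1 : Tendsto (fun x : A => ((4 / ε : ℝ) : ℂ) • x) (𝓝 0) (𝓝 0) := by
    have := (continuous_const_smul (T := A) ((4 / ε : ℝ) : ℂ)).tendsto 0
    simpa using this
  filter_upwards [h1.eventually (main i)] with x hx
  rw [map_smul, map_smul_eq_mul, Complex.norm_real, Real.norm_of_nonneg (by positivity)] at hx
  rw [sub_zero]
  rw [div_mul_eq_mul_div, div_le_iff₀ hε] at hx
  linarith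

end ClosedGraph

end Pool.Agent.Lib.MP_74fee8_an
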