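import Pool.Agent.Lib.MP_74fee8_an.Product

set_option autoImplicit false

open Filter Topology Cardinal

namespace Pool.Agent.Lib.MP_74fee8_an

section Correction

variable {A : Type} [NonUnitalRing A] [Module ℂ A] [IsScalarTower ℂ A A] [SMulCommClass ℂ A A]
  [UniformSpace A] [IsUniformAddGroup A] [IsTopologicalRing A] [ContinuousSMul ℂ A]
  [CompleteSpace A] [T2Space A]
variable {B : Type} [NonUnitalRing B] [Module ℂ B] [IsScalarTower ℂ B B] [SMulCommClass ℂ B B]
  [UniformSpace B] [IsUniformAddGroup B] [IsTopologicalRing B] [ContinuousSMul ℂ B]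
  [CompleteSpace B] [T2Space B]

omit [IsScalarTower ℂ B B] [SMulCommClass ℂ B B] [IsUniformAddGroup B] [CompleteSpace B]
  [T2Space B] in
theorem Rep.isClosed_ker {q : Seminorm ℂ B} (hq : Continuous q) (R : Rep B q) :
    IsClosed (LinearMap.ker R.ρ : Set B) := by
  have h1 : (LinearMap.ker R.ρ : Set B) = ⋂ e, (fun b => R.ρ b e) ⁻¹' {0} := by
    ext b
    simp only [SetLike.mem_coe, LinearMap.mem_ker, Set.mem_iInter, Set.mem_preimage,
      Set.mem_singleton_iff]
    constructor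
    · intro h e; rw [h]; rfl
    · intro h; ext e; exact h e
  rw [h1]
  exact isClosed_iInter fun e => isClosed_singleton.preimage (R.continuous_orbit hq e)

theorem exists_correction {p : ℕ → Seminorm ℂ A} (hp : WithSeminorms p) (hpm : Monotone p)
    {q : ℕ → Seminorm ℂ B} (hq : WithSeminorms q) (hqm : Monotone q)
    (hqs : ∀ n x y, q n (x * y) ≤ q n x * q n y)
    {T : A →ₗ[ℂ] B} (hmul : ∀ x y, T (x * y) = T x * T y) (hsurj : Function.Surjective T)
    {m0 : ℕ} (R0 : Rep B (q m0)) (hbad0 : ∃ s ∈ sepSub T, R0.ρ s ≠ 0) {s : B}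
    (hs : s ∈ sepSub T) :
    ∃ w ∈ sepSub T, w - s ∈ LinearMap.ker R0.ρ ∧
      ∀ i P, P ∈ badKer T (q i) → P ≠ LinearMap.ker R0.ρ → w ∈ P := by
  have hfc : FirstCountableTopology B := hq.firstCountableTopology
  have hcg : (uniformity B).IsCountablyGenerated := IsUniformAddGroup.uniformity_countably_generated
  have hqc : ∀ i, Continuous (q i) := fun i => hq.continuous_seminorm i
  let 𝒬 : Set (Submodule ℂ B) := {P | (∃ i, P ∈ badKer T (q i)) ∧ P ≠ LinearMap.ker R0.ρ}
  by_cases hne : 𝒬.Nonempty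
  swap
  · refine ⟨s, hs, by rw [sub_self]; exact Submodule.zero_mem _, fun i P hP hPne => ?_⟩
    exact absurd ⟨P, ⟨i, hP⟩, hPne⟩ hne
  have hfin : ∀ i, (badKer T (q i)).Finite := fun i => badKer_finite hp hpm (hqc i) hmul hsurj
  have hcount : 𝒬.Countable := by
    apply Set.Countable.mono (s₂ := ⋃ i, badKer T (q i))
    · intro P hP
      obtain ⟨i, hi⟩ := hP.1
      exact Set.mem_iUnion.2 ⟨i, hi⟩
    · exact Set.countable_iUnion fun i => (hfin i).countable
  obtain ⟨f, hf⟩ := hcount.exists_eq_range hne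
  have hfd0 : FiniteDimensional ℂ R0.E :=
    finiteDimensional_of_bad hp hpm (hqc m0) hmul hsurj R0 hbad0
  have hstep : ∀ (j : ℕ) (w : B), ∃ w', (∃ a ∈ LinearMap.ker R0.ρ, w' = w - w * a) ∧
      w' ∈ f j ∧ (w ∈ f j → w' = w) ∧
      ∀ i ≤ j, f j ∉ badKer T (q i) → q i (w' - w) ≤ (1 / 2 : ℝ) ^ j := by
    intro j w
    have hfj : f j ∈ 𝒬 := by rw [hf]; exact ⟨j, rfl⟩
    obtain ⟨⟨m, ⟨R, hR⟩, t, ht, htP⟩, hfne⟩ := hfj
    by_cases hw : w ∈ f j
    · refine ⟨w, ⟨0, Submodule.zero_mem _, by simp⟩, hw, fun _ => rfl, fun i _ _ => ?_⟩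
      rw [sub_self, map_zero]
      positivity
    have hbad : ∃ s ∈ sepSub T, R.ρ s ≠ 0 := by
      refine ⟨t, ht, fun h => htP ?_⟩
      rw [← hR]; exact h
    have hfd : FiniteDimensional ℂ R.E :=
      finiteDimensional_of_bad hp hpm (hqc m) hmul hsurj R hbad
    have hne' : LinearMap.ker R.ρ ≠ LinearMap.ker R0.ρ := by rw [hR]; exact hfne
    have hmem : ∀ a, R.ρ a = LinearMap.id → w - w * a ∈ f j := by
      intro a ha
      rw [← hR, LinearMap.mem_ker]
      ext e
      rw [map_sub, LinearMap.sub_apply, R.map_mul, ha]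
      simp
    classical
    let F : Finset ℕ := (Finset.range (j + 1)).filter fun i => f j ∉ badKer T (q i)
    by_cases hF : F.Nonempty
    · have hmax := F.max'_mem hF
      set i0 := F.max' hF with hi0
      have hi0' : f j ∉ badKer T (q i0) := (Finset.mem_filter.1 hmax).2
      have hd : qcl (q i0) (LinearMap.ker R.ρ) = ⊤ := by
        rcases R.dichotomy (hqs i0) with h | ⟨R', hR'⟩
        · exact h
        · exfalso
          apply hi0'
          exact ⟨⟨R', by rw [hR', hR]⟩, t, ht, htP⟩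
      obtain ⟨a, ha, haid, hasmall⟩ := Rep.approx_id R0 R hne' (hqs i0) hd w
        (show (0 : ℝ) < (1 / 2) ^ j by positivity)
      refine ⟨w - w * a, ⟨a, ha, rfl⟩, hmem a haid, fun h => absurd h hw, fun i hij hi => ?_⟩
      have h1 : w - w * a - w = -(w * a) := by abel
      rw [h1, map_neg_eq_map]
      have h2 : i ≤ i0 := F.le_max' _ (Finset.mem_filter.2 ⟨Finset.mem_range.2 (by omega), hi⟩)
      exact (hqm h2 _).trans hasmall
    · obtain ⟨a, ha, haid⟩ := Rep.exists_id R0 R hne'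
      refine ⟨w - w * a, ⟨a, ha, rfl⟩, hmem a haid, fun h => absurd h hw, fun i hij hi => ?_⟩
      exact absurd ⟨i, Finset.mem_filter.2 ⟨Finset.mem_range.2 (by omega), hi⟩⟩ hF
  choose g hg1 hg2 hg3 hg4 using hstep
  obtain ⟨w, hw0, hw⟩ : ∃ w : ℕ → B, w 0 = s ∧ ∀ n, w (n + 1) = g n (w n) :=
    ⟨fun n => Nat.rec s (fun k x => g k x) n, rfl, fun n => rfl⟩
  have hwS : ∀ n, w n ∈ sepSub T := by
    intro n
    induction n with
    | zero => rw [hw0]; exact hs
    | succ n ih =>
      obtain ⟨a, ha, h⟩ := hg1 n (w n)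
      rw [hw, h]
      exact (sepSub T).sub_mem ih (mul_right_mem_sepSub hmul hsurj a ih)
  have hwP0 : ∀ n, w n - s ∈ LinearMap.ker R0.ρ := by
    intro n
    induction n with
    | zero => rw [hw0, sub_self]; exact Submodule.zero_mem _
    | succ n ih =>
      obtain ⟨a, ha, h⟩ := hg1 n (w n)
      rw [hw, h, show w n - w n * a - s = (w n - s) - w n * a by abel]
      exact Submodule.sub_mem _ ih (R0.ker_left _ _ ha)
  -- once in `f k`, always in `f k`
  have hQker : ∀ k, ∃ m, ∃ R : Rep B (q m), LinearMap.ker R.ρ = f k := by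
    intro k
    have hfk : f k ∈ 𝒬 := by rw [hf]; exact ⟨k, rfl⟩
    obtain ⟨⟨m, ⟨R, hR⟩, _⟩, _⟩ := hfk
    exact ⟨m, R, hR⟩
  have hwf : ∀ k d, w (k + 1 + d) ∈ f k := by
    intro k d
    induction d with
    | zero => rw [add_zero, hw]; exact hg2 _ _
    | succ d ih =>
      obtain ⟨m, R, hR⟩ := hQker k
      obtain ⟨a, ha, h⟩ := hg1 (k + 1 + d) (w (k + 1 + d))
      rw [← add_assoc, hw, h]
      apply (f k).sub_mem ih
      rw [← hR] at ih ⊢
      exact R.ker_right _ _ ih
  obtain ⟨x, hx⟩ : ∃ x, Tendsto w atTop (𝓝 x) := by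
    apply exists_lim hq
    intro i
    -- bound for the indices visiting the finite set
    obtain ⟨N, hN⟩ : ∃ N, ∀ k, f k ∈ badKer T (q i) → ∃ k' < N, f k' = f k := by
      have h1 : ∀ P ∈ badKer T (q i), ∃ N, (∃ k, f k = P) → ∃ k' < N, f k' = P := by
        intro P _
        by_cases h : ∃ k, f k = P
        · obtain ⟨k, hk⟩ := h
          exact ⟨k + 1, fun _ => ⟨k, by omega, hk⟩⟩
        · exact ⟨0, fun h' => absurd h' h⟩
      choose! N hN using h1
      refine ⟨(hfin i).toFinset.sup N, fun k hk => ?_⟩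
      obtain ⟨k', hk', hk''⟩ := hN _ hk ⟨k, rfl⟩
      exact ⟨k', lt_of_lt_of_le hk' (Finset.le_sup (f := N) ((hfin i).mem_toFinset.2 hk)), hk''⟩
    refine ⟨max i N, fun k hk => ?_⟩
    have hik : i ≤ k := le_trans (le_max_left _ _) hk
    have hNk : N ≤ k := le_trans (le_max_right _ _) hk
    rw [hw]
    by_cases hfk : f k ∈ badKer T (q i)
    · obtain ⟨k', hk', hk''⟩ := hN k hfk
      have h1 : w k ∈ f k := by
        have h2 := hwf k' (k - (k' + 1))
        rw [hk'', show k' + 1 + (k - (k' + 1)) = k by omega] at h2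
        exact h2
      rw [hg3 _ _ h1, sub_self, map_zero]
      positivity
    · exact hg4 k (w k) i hik hfk
  refine ⟨x, ?_, ?_, ?_⟩
  · exact (isClosed_sepSub T).mem_of_tendsto hx (Eventually.of_forall hwS)
  · have h1 : Tendsto (fun n => w n - s) atTop (𝓝 (x - s)) := hx.sub_const s
    exact (R0.isClosed_ker (hqc m0)).mem_of_tendsto h1 (Eventually.of_forall hwP0)
  · intro i P hP hPne
    have hPQ : P ∈ 𝒬 := ⟨⟨i, hP⟩, hPne⟩
    rw [hf] at hPQ
    obtain ⟨k, rfl⟩ := hPQ
    obtain ⟨m, R, hR⟩ := hQker k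
    have hcl : IsClosed (f k : Set B) := by
      rw [← hR]; exact R.isClosed_ker (hqc m)
    refine hcl.mem_of_tendsto hx ?_
    filter_upwards [eventually_ge_atTop (k + 1)] with n hn
    obtain ⟨d, rfl⟩ := Nat.exists_eq_add_of_le hn
    exact hwf k d

end Correction

end Pool.Agent.Lib.MP_74fee8_an
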