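import Pool.Agent.Lib.MP_74fee8_an.Basic

set_option autoImplicit false

open Filter Topology

namespace Pool.Agent.Lib.MP_74fee8_an

section HumpGen

variable {A : Type} [NonUnitalRing A] [Module ℂ A]
  [UniformSpace A] [IsUniformAddGroup A] 
  [CompleteSpace A] [T2Space A]

/-- `pullL τ j d` is `τ j ∘ ... ∘ τ (j+d-1)`. -/
def pullL (τ : ℕ → A →ₗ[ℂ] A) : ℕ → ℕ → A →ₗ[ℂ] A
  | _, 0 => LinearMap.id
  | j, d + 1 => τ j ∘ₗ pullL τ (j + 1) d

omit [UniformSpace A] [IsUniformAddGroup A] [CompleteSpace A] [T2Space A] in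
theorem comp_pullL {τ C : ℕ → A →ₗ[ℂ] A} (hC : ∀ n, C (n + 1) = C n ∘ₗ τ n) (d : ℕ) :
    ∀ (j : ℕ) (y : A), C j (pullL τ j d y) = C (j + d) y := by
  induction d with
  | zero => intro j y; rfl
  | succ d ih =>
    intro j y
    rw [pullL, LinearMap.comp_apply, ← LinearMap.comp_apply, ← hC, ih,
      show j + 1 + d = j + (d + 1) by omega]

omit [IsUniformAddGroup A] [CompleteSpace A] [T2Space A] in
theorem continuous_pullL {τ : ℕ → A →ₗ[ℂ] A} (hτ : ∀ n, Continuous (τ n)) (d : ℕ) :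
    ∀ (j : ℕ), Continuous (pullL τ j d) := by
  induction d with
  | zero => intro j; exact continuous_id
  | succ d ih => intro j; exact (hτ j).comp (ih (j + 1))

/-- The gliding hump, general form. -/
theorem hump_gen {p : ℕ → Seminorm ℂ A} (hp : WithSeminorms p) (hpm : Monotone p)
    (τ C : ℕ → A →ₗ[ℂ] A) (hτ : ∀ n, Continuous (τ n)) (hC0 : C 0 = LinearMap.id)
    (hC : ∀ n, C (n + 1) = C n ∘ₗ τ n) (N : ℕ → Seminorm ℂ A)
    (h1 : ∀ n, ∀ ε > 0, {y : A | N n (C (n + 1) y) < ε} ∈ 𝓝 (0 : A))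
    (h2 : ∀ n, ∀ U ∈ 𝓝 (0 : A), ∀ K : ℝ, ∃ y ∈ U, K < N n (C n y)) :
    ∃ x : A, ∀ n : ℕ, (n : ℝ) ≤ N n x := by
  have hCc : ∀ n, Continuous (C n) := by
    intro n
    induction n with
    | zero => rw [hC0]; exact continuous_id
    | succ n ih => rw [hC]; exact ih.comp (hτ n)
  have hU : ∀ k : ℕ, {y : A | (∀ j ∈ Finset.range (k + 1), p k (pullL τ j (k - j) y) <
      (1 / 2 : ℝ) ^ k) ∧ ∀ j ∈ Finset.range k, N j (C k y) < (1 / 2 : ℝ) ^ k} ∈ 𝓝 (0 : A) := by
    intro k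
    have hb := ball_mem_nhds hp k (show (0 : ℝ) < (1 / 2) ^ k by positivity)
    have h4 : ∀ j ∈ Finset.range (k + 1),
        {y : A | p k (pullL τ j (k - j) y) < (1 / 2 : ℝ) ^ k} ∈ 𝓝 (0 : A) := by
      intro j _
      have hcont : Continuous (pullL τ j (k - j)) := continuous_pullL hτ _ _
      have := hcont.continuousAt.preimage_mem_nhds (x := 0) (t := {x : A | p k x < (1 / 2 : ℝ) ^ k})
        (by rw [map_zero]; exact hb)
      exact this
    have h5 : (⋂ j ∈ Finset.range (k + 1),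
        {y : A | p k (pullL τ j (k - j) y) < (1 / 2 : ℝ) ^ k}) ∈ 𝓝 (0 : A) :=
      (Filter.biInter_finset_mem _).2 h4
    have h6 : ∀ j ∈ Finset.range k, {y : A | N j (C k y) < (1 / 2 : ℝ) ^ k} ∈ 𝓝 (0 : A) := by
      intro j hj
      rw [Finset.mem_range] at hj
      have hcont : Continuous (pullL τ (j + 1) (k - (j + 1))) := continuous_pullL hτ _ _
      have := hcont.continuousAt.preimage_mem_nhds (x := 0)
        (t := {y : A | N j (C (j + 1) y) < (1 / 2 : ℝ) ^ k})
        (by rw [map_zero]; exact h1 j _ (by positivity))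
      filter_upwards [this] with y hy
      have hy' : N j (C (j + 1) (pullL τ (j + 1) (k - (j + 1)) y)) < (1 / 2 : ℝ) ^ k := hy
      rw [comp_pullL hC, show j + 1 + (k - (j + 1)) = k by omega] at hy'
      exact hy'
    have h7 : (⋂ j ∈ Finset.range k, {y : A | N j (C k y) < (1 / 2 : ℝ) ^ k}) ∈ 𝓝 (0 : A) :=
      (Filter.biInter_finset_mem _).2 h6
    filter_upwards [h5, h7] with y hy2 hy3
    exact ⟨fun j hj => by simpa using Set.mem_iInter₂.1 hy2 j hj,
      fun j hj => by simpa using Set.mem_iInter₂.1 hy3 j hj⟩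
  have hstep : ∀ (k : ℕ) (s : A), ∃ y : A, ((∀ j ∈ Finset.range (k + 1),
      p k (pullL τ j (k - j) y) < (1 / 2 : ℝ) ^ k) ∧
      ∀ j ∈ Finset.range k, N j (C k y) < (1 / 2 : ℝ) ^ k) ∧
      (k : ℝ) + 1 + N k s < N k (C k y) := by
    intro k s
    obtain ⟨y, hy, hy2⟩ := h2 k _ (hU k) ((k : ℝ) + 1 + N k s)
    exact ⟨y, hy, hy2⟩
  choose Y hY1 hY2 using hstep
  obtain ⟨s, hs0, hs⟩ : ∃ s : ℕ → A, s 0 = 0 ∧ ∀ k, s (k + 1) = s k + C k (Y k (s k)) :=
    ⟨fun n => Nat.rec 0 (fun k s => s + C k (Y k s)) n, rfl, fun k => rfl⟩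
  obtain ⟨x, hx⟩ : ∃ x, Tendsto s atTop (𝓝 x) := by
    apply exists_lim hp
    intro i
    refine ⟨i, fun k hk => ?_⟩
    rw [hs, add_sub_cancel_left]
    have h3 := (hY1 k (s k)).1 0 (by simp)
    have h4 := comp_pullL hC k 0 (Y k (s k))
    rw [hC0, LinearMap.id_apply, zero_add] at h4
    rw [Nat.sub_zero, h4] at h3
    exact (hpm hk _).trans h3.le
  refine ⟨x, fun n => ?_⟩
  obtain ⟨t, ht0, ht⟩ : ∃ t : ℕ → A, t 0 = 0 ∧
      ∀ k, t (k + 1) = t k + pullL τ (n + 1) k (Y (n + 1 + k) (s (n + 1 + k))) :=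
    ⟨fun d => Nat.rec 0 (fun k t => t + pullL τ (n + 1) k (Y (n + 1 + k) (s (n + 1 + k)))) d,
      rfl, fun k => rfl⟩
  obtain ⟨z, hz⟩ : ∃ z, Tendsto t atTop (𝓝 z) := by
    apply exists_lim hp
    intro i
    refine ⟨i, fun k hk => ?_⟩
    rw [ht, add_sub_cancel_left]
    have h3 := (hY1 (n + 1 + k) (s (n + 1 + k))).1 (n + 1) (Finset.mem_range.2 (by omega))
    rw [show n + 1 + k - (n + 1) = k by omega] at h3
    refine (hpm (show i ≤ n + 1 + k by omega) _).trans (h3.le.trans ?_)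
    exact pow_le_pow_of_le_one (by norm_num) (by norm_num) (by omega)
  have hts : ∀ d, C (n + 1) (t d) = s (n + 1 + d) - s (n + 1) := by
    intro d
    induction d with
    | zero => simp [ht0]
    | succ d ih =>
      rw [ht, map_add, ih, comp_pullL hC, ← add_assoc, hs (n + 1 + d), sub_add_eq_add_sub]
  have hzx : C (n + 1) z = x - s (n + 1) := by
    have h3 : Tendsto (fun d => C (n + 1) (t d)) atTop (𝓝 (C (n + 1) z)) :=
      ((hCc (n + 1)).tendsto z).comp hz
    have h4 : Tendsto (fun d => s (n + 1 + d) - s (n + 1)) atTop (𝓝 (x - s (n + 1))) := by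
      refine Tendsto.sub_const ?_ _
      refine hx.comp ?_
      exact tendsto_atTop_mono (fun d => show d ≤ n + 1 + d by omega) tendsto_id
    refine tendsto_nhds_unique h3 ?_
    simpa only [hts] using h4
  have hNt : ∀ d, N n (C (n + 1) (t d)) ≤ 1 - (1 / 2 : ℝ) ^ d := by
    intro d
    induction d with
    | zero => rw [ht0, map_zero, map_zero]; norm_num
    | succ d ih =>
      rw [ht, map_add, comp_pullL hC]
      refine (map_add_le_add _ _ _).trans ?_
      have h3 := (hY1 (n + 1 + d) (s (n + 1 + d))).2 n (Finset.mem_range.2 (by omega))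
      have h4 : (1 / 2 : ℝ) ^ (n + 1 + d) ≤ (1 / 2) ^ (d + 1) :=
        pow_le_pow_of_le_one (by norm_num) (by norm_num) (by omega)
      rw [pow_succ] at h4 ⊢
      linarith
  have hNz : N n (C (n + 1) z) ≤ 1 := by
    apply le_of_forall_pos_le_add
    intro ε hε
    have h3 := h1 n ε hε
    have h4 : Tendsto (fun d => z - t d) atTop (𝓝 0) := by
      have : Tendsto (fun d => z - t d) atTop (𝓝 (z - z)) := tendsto_const_nhds.sub hz
      rwa [sub_self] at this
    obtain ⟨d, hd⟩ := (h4.eventually h3).exists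
    have h5 : C (n + 1) z = C (n + 1) (t d) + C (n + 1) (z - t d) := by
      rw [← map_add]; congr 1; abel
    rw [h5]
    refine (map_add_le_add _ _ _).trans ?_
    have h6 := hNt d
    have h7 : (0 : ℝ) < (1 / 2) ^ d := by positivity
    have h8 : N n (C (n + 1) (z - t d)) < ε := hd
    linarith
  have h3 : C n (Y n (s n)) = x - s n - C (n + 1) z := by
    rw [hzx, hs]; abel
  have h4 := hY2 n (s n)
  rw [h3] at h4
  have h5 := map_sub_le_add (N n) (x - s n) (C (n + 1) z)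
  have h6 := map_sub_le_add (N n) x (s n)
  linarith

end HumpGen

end Pool.Agent.Lib.MP_74fee8_an
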