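import Pool.Agent.Lib.MP_74fee8_an.SepIdeal
import Pool.Agent.Lib.MP_74fee8_an.HumpGen

set_option autoImplicit false

open Filter Topology

namespace Pool.Agent.Lib.MP_74fee8_an

/-- right multiplication by an element of the unitization -/
def rm {B : Type} [NonUnitalRing B] [Module ℂ B] [IsScalarTower ℂ B B] [SMulCommClass ℂ B B]
    (u : Unitization ℂ B) : B →ₗ[ℂ] B where
  toFun x := u.fst • x + x * u.snd
  map_add' x y := by rw [smul_add, add_mul]; abel
  map_smul' c x := by
    rw [RingHom.id_apply, smul_add, smul_mul_assoc, smul_comm]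

section rm

variable {B : Type} [NonUnitalRing B] [Module ℂ B] [IsScalarTower ℂ B B] [SMulCommClass ℂ B B]

theorem rm_apply (u : Unitization ℂ B) (x : B) : rm u x = u.fst • x + x * u.snd := rfl

theorem inr_rm (u : Unitization ℂ B) (x : B) :
    (Unitization.inr (rm u x) : Unitization ℂ B) = Unitization.inr x * u := by
  rw [rm_apply]
  ext
  · simp
  · simp

theorem rm_mul (u v : Unitization ℂ B) (x : B) : rm (u * v) x = rm v (rm u x) := by
  apply Unitization.inr_injective (R := ℂ)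
  rw [inr_rm, inr_rm, inr_rm, mul_assoc]

theorem rm_one (x : B) : rm (1 : Unitization ℂ B) x = x := by
  apply Unitization.inr_injective (R := ℂ)
  rw [inr_rm, mul_one]

omit [IsScalarTower ℂ B B] [SMulCommClass ℂ B B] in
theorem exists_quot_seminorm (r : Seminorm ℂ B) (M : Submodule ℂ B) :
    ∃ N : Seminorm ℂ B, (∀ x, N x ≤ r x) ∧ (∀ m ∈ M, N m = 0) ∧
      ∀ x ε, N x < ε → ∃ m ∈ M, r (x - m) < ε := by
  letI : SeminormedAddCommGroup B := AddGroupSeminorm.toSeminormedAddCommGroup r.toAddGroupSeminorm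
  have hn : ∀ b : B, ‖b‖ = r b := fun b => rfl
  letI : NormedSpace ℂ B := ⟨fun a b => by rw [hn, hn, map_smul_eq_mul]⟩
  let N : Seminorm ℂ B := (normSeminorm ℂ (B ⧸ M)).comp M.mkQ
  have hN : ∀ x, N x = ‖(Submodule.Quotient.mk x : B ⧸ M)‖ := fun x => rfl
  refine ⟨N, ?_, ?_, ?_⟩
  · intro x
    rw [hN, ← hn]
    exact Submodule.Quotient.norm_mk_le M x
  · intro m hm
    rw [hN, (Submodule.Quotient.mk_eq_zero M).2 hm, norm_zero]
  · intro x ε hx
    rw [hN] at hx
    obtain ⟨y, hy1, hy2⟩ := Submodule.Quotient.norm_mk_lt (Submodule.Quotient.mk x : B ⧸ M)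
      (sub_pos.2 hx)
    refine ⟨x - y, (Submodule.Quotient.eq M).1 hy1.symm, ?_⟩
    rw [sub_sub_cancel]
    rw [hn] at hy2
    linarith

end rm

section DCC

variable {A : Type} [NonUnitalRing A] [Module ℂ A] [IsScalarTower ℂ A A] [SMulCommClass ℂ A A]
  [UniformSpace A] [IsUniformAddGroup A] [IsTopologicalRing A] [ContinuousSMul ℂ A]
  [CompleteSpace A] [T2Space A]
variable {B : Type} [NonUnitalRing B] [Module ℂ B] [IsScalarTower ℂ B B] [SMulCommClass ℂ B B]
  [UniformSpace B] [IsUniformAddGroup B] [IsTopologicalRing B] [ContinuousSMul ℂ B]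
  [CompleteSpace B] [T2Space B]

omit [UniformSpace B] [IsUniformAddGroup B] [IsTopologicalRing B] [ContinuousSMul ℂ B]
  [CompleteSpace B] [T2Space B] in
theorem continuous_rm [TopologicalSpace B] [IsTopologicalRing B] [ContinuousSMul ℂ B]
    (u : Unitization ℂ B) : Continuous (rm u) := by
  have h1 : Continuous fun x : B => u.fst • x + x * u.snd :=
    (continuous_const_smul _).add (continuous_mul_const _)
  exact h1

omit [IsScalarTower ℂ A A] [SMulCommClass ℂ A A] [T2Space A]
  [IsScalarTower ℂ B B] [SMulCommClass ℂ B B] [T2Space B] in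
/-- Modulo the separating space a linear map between Frechet spaces is continuous. -/
theorem dist_sep {p : ℕ → Seminorm ℂ A} (hp : WithSeminorms p) (hpm : Monotone p)
    {q : ℕ → Seminorm ℂ B} (hq : WithSeminorms q) (hqm : Monotone q)
    (T : A →ₗ[ℂ] B) {U : Set B} (hU : U ∈ 𝓝 (0 : B)) :
    ∀ᶠ z in 𝓝 (0 : A), ∃ s ∈ sepSub T, T z - s ∈ U := by
  obtain ⟨m, ε, hε, h⟩ := nhds_zero_basis hq hqm hU
  have h1 : Tendsto (fun x : A => ((4 / ε : ℝ) : ℂ) • x) (𝓝 0) (𝓝 0) := by
    have := (continuous_const_smul (T := A) ((4 / ε : ℝ) : ℂ)).tendsto 0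
    simpa using this
  filter_upwards [h1.eventually (dist_sep_two hp hpm hq hqm T m)] with z hz
  obtain ⟨s, hs, hs2⟩ := hz
  have hc : ((4 / ε : ℝ) : ℂ) ≠ 0 := by
    exact_mod_cast (by positivity : (4 / ε : ℝ) ≠ 0)
  refine ⟨(((4 / ε : ℝ) : ℂ))⁻¹ • s, (sepSub T).smul_mem _ hs, h _ ?_⟩
  have h2 : T z - (((4 / ε : ℝ) : ℂ))⁻¹ • s =
      (((4 / ε : ℝ) : ℂ))⁻¹ • (T (((4 / ε : ℝ) : ℂ) • z) - s) := by
    rw [smul_sub, map_smul, smul_smul, inv_mul_cancel₀ hc, one_smul]
  rw [h2, map_smul_eq_mul, norm_inv, Complex.norm_real, Real.norm_of_nonneg (by positivity)]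
  have h3 : (4 / ε)⁻¹ = ε / 4 := by rw [inv_div]
  rw [h3]
  nlinarith

/-- The stability lemma (descending chain condition): right multiplications can shrink the
separating ideal, up to closure for one continuous seminorm, only finitely often. -/
theorem dcc {p : ℕ → Seminorm ℂ A} (hp : WithSeminorms p) (hpm : Monotone p)
    {q : ℕ → Seminorm ℂ B} (hq : WithSeminorms q) (hqm : Monotone q)
    {T : A →ₗ[ℂ] B} (hmul : ∀ x y, T (x * y) = T x * T y) (hsurj : Function.Surjective T)
    {r : Seminorm ℂ B} (hr : Continuous r) (u w : ℕ → Unitization ℂ B) (hw0 : w 0 = 1)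
    (hw : ∀ n, w (n + 1) = u n * w n) :
    ∃ n, ∀ s ∈ sepSub T, ∀ ε > 0, ∃ s' ∈ sepSub T, r (rm (w n) s - rm (w (n + 1)) s') < ε := by
  by_contra hcon
  push Not at hcon
  choose s hs ε hε hse using hcon
  choose g hg using hsurj
  -- the operators on `A`
  let u' : ℕ → Unitization ℂ A := fun n => Unitization.inl (u n).fst + Unitization.inr (g (u n).snd)
  have hu'1 : ∀ n, (u' n).fst = (u n).fst := fun n => by simp [u']
  have hu'2 : ∀ n, (u' n).snd = g (u n).snd := fun n => by simp [u']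
  have hTu : ∀ n x, T (rm (u' n) x) = rm (u n) (T x) := by
    intro n x
    rw [rm_apply, rm_apply, map_add, map_smul, hmul, hu'1, hu'2, hg]
  obtain ⟨C, hC0, hC⟩ : ∃ C : ℕ → A →ₗ[ℂ] A, C 0 = LinearMap.id ∧
      ∀ n, C (n + 1) = C n ∘ₗ rm (u' n) :=
    ⟨fun n => Nat.rec LinearMap.id (fun k c => c ∘ₗ rm (u' k)) n, rfl, fun n => rfl⟩
  have hTC : ∀ n x, T (C n x) = rm (w n) (T x) := by
    intro n
    induction n with
    | zero => intro x; rw [hC0, hw0, rm_one]; rfl
    | succ n ih => intro x; rw [hC, hw, rm_mul, LinearMap.comp_apply, ih, hTu]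
  have hN := fun n => exists_quot_seminorm r ((sepSub T).map (rm (w (n + 1))))
  choose N hN1 hN2 hN3 using hN
  have hwc : ∀ n, Continuous (rm (w n) : B → B) := fun n => continuous_rm (w n)
  have key := hump_gen hp hpm (fun n => rm (u' n)) C (fun n => continuous_rm _) hC0 hC
    (fun n => (N n).comp T) (by
    intro n δ hδ
    have hU : {b : B | r (rm (w (n + 1)) b) < δ} ∈ 𝓝 (0 : B) := by
      have h1 : Continuous fun b : B => r (rm (w (n + 1)) b) := hr.comp (hwc _)
      have h2 : (fun b : B => r (rm (w (n + 1)) b)) ⁻¹' (Set.Iio δ) ∈ 𝓝 (0 : B) := by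
        apply h1.continuousAt.preimage_mem_nhds
        rw [map_zero, map_zero]
        exact Iio_mem_nhds hδ
      exact h2
    filter_upwards [dist_sep hp hpm hq hqm T hU] with z hz
    obtain ⟨t, ht, ht2⟩ := hz
    have ht2' : r (rm (w (n + 1)) (T z - t)) < δ := ht2
    show N n (T (C (n + 1) z)) < δ
    rw [hTC]
    have h3 : rm (w (n + 1)) (T z) = rm (w (n + 1)) (T z - t) + rm (w (n + 1)) t := by
      rw [← map_add, sub_add_cancel]
    rw [h3]
    refine lt_of_le_of_lt (map_add_le_add _ _ _) ?_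
    rw [hN2 n _ ⟨t, ht, rfl⟩, add_zero]
    exact lt_of_le_of_lt (hN1 n _) ht2') (by
    intro n U hU K
    have hNs : ε n ≤ N n (rm (w n) (s n)) := by
      by_contra hlt
      push Not at hlt
      obtain ⟨m, ⟨s', hs', hm⟩, hm2⟩ := hN3 n _ _ hlt
      have h1 := hse n s' hs'
      rw [hm] at h1
      exact absurd hm2 (not_lt.2 h1)
    -- a large multiple of `s n`
    let t : ℝ := (|K| + 1) / ε n
    have ht : 0 < t := div_pos (by positivity) (hε n)
    have hsn : (t : ℂ) • s n ∈ sepSub T := (sepSub T).smul_mem _ (hs n)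
    have hK : K < N n (rm (w n) ((t : ℂ) • s n)) := by
      rw [map_smul, map_smul_eq_mul, Complex.norm_real, Real.norm_of_nonneg ht.le]
      have h1 : t * ε n = |K| + 1 := div_mul_cancel₀ _ (hε n).ne'
      have h2 : t * ε n ≤ t * N n (rm (w n) (s n)) := mul_le_mul_of_nonneg_left hNs ht.le
      have h3 := le_abs_self K
      linarith
    have hNc : Continuous (N n) := by
      refine Seminorm.continuous_of_le hr (fun x => hN1 n x)
    have hV : {b : B | K < N n (rm (w n) b)} ∈ 𝓝 ((t : ℂ) • s n) := by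
      have h1 : Continuous fun b : B => N n (rm (w n) b) := hNc.comp (hwc _)
      exact h1.continuousAt.preimage_mem_nhds (Ioi_mem_nhds hK)
    obtain ⟨y, hy, hy2⟩ := hsn U hU _ hV
    refine ⟨y, hy, ?_⟩
    show K < N n (T (C n y))
    rw [hTC]
    exact hy2)
  obtain ⟨x, hx⟩ := key
  obtain ⟨n, hn⟩ := exists_nat_gt (r (T x))
  have h1 := hx n
  have h2 : ((N n).comp T) x = N n (T x) := rfl
  rw [h2] at h1
  have h3 := hN1 n (T x)
  linarith

end DCC

end Pool.Agent.Lib.MP_74fee8_an
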