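import Pool.Agent.Lib.MP_74fee8_an.FiniteDim

set_option autoImplicit false

open Filter Topology Cardinal

namespace Pool.Agent.Lib.MP_74fee8_an

namespace Rep

variable {B : Type} [NonUnitalRing B] [Module ℂ B] {q q' : Seminorm ℂ B}

theorem ker_le_of_ann_le (R : Rep B q) (R' : Rep B q') {v : R.E} {v' : R'.E} (hv' : v' ≠ 0)
    (h : ∀ b, R.ρ b v = 0 → R'.ρ b v' = 0) : LinearMap.ker R.ρ ≤ LinearMap.ker R'.ρ := by
  intro b hb
  rw [LinearMap.mem_ker] at hb ⊢
  ext f
  obtain ⟨x, rfl⟩ := R'.simple v' hv' f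
  rw [← R'.map_mul, h (b * x) (by rw [R.map_mul, hb]; rfl)]
  rfl

theorem ker_eq_of_ann_le (R : Rep B q) (R' : Rep B q') {v : R.E} {v' : R'.E} (hv : v ≠ 0)
    (hv' : v' ≠ 0) (h : ∀ b, R.ρ b v = 0 → R'.ρ b v' = 0) :
    LinearMap.ker R.ρ = LinearMap.ker R'.ρ := by
  apply le_antisymm (R.ker_le_of_ann_le R' hv' h)
  refine R'.ker_le_of_ann_le R (v := v') hv (fun a ha => ?_)
  by_contra hav
  have h1 : ∀ x, R'.ρ x v' = 0 := by
    intro x
    obtain ⟨b, hb⟩ := R.simple _ hav (R.ρ x v)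
    have h2 := h (x - b * a) (by rw [map_sub, LinearMap.sub_apply, R.map_mul, hb, sub_self])
    rw [map_sub, LinearMap.sub_apply, R'.map_mul, ha, map_zero, sub_zero] at h2
    exact h2
  obtain ⟨x, hx⟩ := R'.simple v' hv' v'
  exact hv' (by rw [← hx, h1])

end Rep

section FiniteMany

variable {A : Type} [NonUnitalRing A] [Module ℂ A] [IsScalarTower ℂ A A] [SMulCommClass ℂ A A]
  [UniformSpace A] [IsUniformAddGroup A] [IsTopologicalRing A] [ContinuousSMul ℂ A]
  [CompleteSpace A] [T2Space A]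
variable {B : Type} [NonUnitalRing B] [Module ℂ B] [IsScalarTower ℂ B B] [SMulCommClass ℂ B B]
  [UniformSpace B] [IsUniformAddGroup B] [IsTopologicalRing B] [ContinuousSMul ℂ B]
  [CompleteSpace B] [T2Space B]

theorem step_avoid [(uniformity B).IsCountablyGenerated] {q : Seminorm ℂ B}
    (hq : Continuous q) (R : ℕ → Rep B q) (v : ∀ j, (R j).E) (M : Submodule ℂ B)
    (hM : IsClosed (M : Set B)) (J : Set ℕ) (h : ∀ j ∈ J, ∃ b ∈ M, (R j).ρ b (v j) ≠ 0) :
    ∃ b ∈ M, ∀ j ∈ J, (R j).ρ b (v j) ≠ 0 := by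
  by_contra hcon
  push Not at hcon
  let C : ℕ → Set B := fun j => {b | j ∈ J ∧ (R j).ρ b (v j) = 0}
  have hC : ∀ j, IsClosed (C j) := by
    intro j
    by_cases hj : j ∈ J
    · have h1 : C j = (fun b => (R j).ρ b (v j)) ⁻¹' {0} := by
        ext b
        constructor
        · intro hb; exact hb.2
        · intro hb; exact ⟨hj, hb⟩
      rw [h1]
      exact isClosed_singleton.preimage ((R j).continuous_orbit hq _)
    · have h1 : C j = ∅ := by
        ext b
        constructor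
        · intro hb; exact absurd hb.1 hj
        · intro hb; exact absurd hb (Set.notMem_empty b)
      rw [h1]
      exact isClosed_empty
  obtain ⟨j, b0, hb0, U, hU, hUC⟩ := baire_sub M hM C hC (fun b hb => hcon b hb)
  have h2 : b0 ∈ C j := by
    have := hUC 0 (mem_of_mem_nhds hU) M.zero_mem
    rwa [add_zero] at this
  obtain ⟨c, hcM, hc⟩ := h j h2.1
  obtain ⟨z, hz, hzU⟩ := exists_smul_mem hU c
  have h3 := (hUC _ hzU (M.smul_mem z hcM)).2
  rw [map_add, LinearMap.add_apply, h2.2, zero_add, map_smul, LinearMap.smul_apply,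
    smul_eq_zero] at h3
  rcases h3 with h3 | h3
  · exact hz h3
  · exact hc h3

/-- There is no infinite family of bad representations with distinct kernels which is bounded by
one seminorm. -/
theorem no_infinite {p : ℕ → Seminorm ℂ A} (hp : WithSeminorms p) (hpm : Monotone p)
    [(uniformity B).IsCountablyGenerated]
    {q : Seminorm ℂ B} (hq : Continuous q)
    {T : A →ₗ[ℂ] B} (hmul : ∀ x y, T (x * y) = T x * T y) (hsurj : Function.Surjective T)
    (R : ℕ → Rep B q) (hbad : ∀ n, ∃ s ∈ sepSub T, (R n).ρ s ≠ 0)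
    (hinj : ∀ i j, LinearMap.ker (R i).ρ = LinearMap.ker (R j).ρ → i = j) : False := by
  have he : ∀ j, ∃ e : (R j).E, ‖e‖ ≤ 1 ∧ e ≠ 0 := by
    intro j
    have he0 := (R j).e₀_ne
    refine ⟨((‖(R j).e₀‖⁻¹ : ℝ) : ℂ) • (R j).e₀, ?_, ?_⟩
    · rw [norm_smul, Complex.norm_real, norm_inv, norm_norm,
        inv_mul_cancel₀ (norm_ne_zero_iff.2 he0)]
    · refine smul_ne_zero ?_ he0
      exact_mod_cast inv_ne_zero (norm_ne_zero_iff.2 he0)
  choose e he1 he2 using he
  obtain ⟨c0, -, hc0⟩ := step_avoid hq R e ⊤ isClosed_univ Set.univ (by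
    intro j _
    obtain ⟨b, hb⟩ := (R j).simple (e j) (he2 j) (e j)
    exact ⟨b, trivial, by rw [hb]; exact he2 j⟩)
  have hstep : ∀ (n : ℕ) (c : B), (∀ j, n ≤ j → (R j).ρ c (e j) ≠ 0) →
      ∃ b, (R n).ρ b ((R n).ρ c (e n)) = 0 ∧ ∀ j, n + 1 ≤ j → (R j).ρ (b * c) (e j) ≠ 0 := by
    intro n c hc
    let M : Submodule ℂ B := LinearMap.ker ((R n).ρ.flip ((R n).ρ c (e n)))
    have hMem : ∀ b, b ∈ M ↔ (R n).ρ b ((R n).ρ c (e n)) = 0 := fun b => Iff.rfl
    have hM : IsClosed (M : Set B) := by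
      have h1 : (M : Set B) = (fun b => (R n).ρ b ((R n).ρ c (e n))) ⁻¹' {0} := by
        ext b; exact hMem b
      rw [h1]
      exact isClosed_singleton.preimage ((R n).continuous_orbit hq _)
    obtain ⟨b, hbM, hb⟩ := step_avoid hq R (fun j => (R j).ρ c (e j)) M hM {j | n + 1 ≤ j} (by
      intro j hj
      by_contra hcon
      push Not at hcon
      have h1 := (R n).ker_eq_of_ann_le (R j) (hc n le_rfl) (hc j (by
        have : n + 1 ≤ j := hj
        omega)) (fun b hb => hcon b ((hMem b).2 hb))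
      have h2 := hinj _ _ h1
      have : n + 1 ≤ j := hj
      omega)
    refine ⟨b, (hMem b).1 hbM, fun j hj => ?_⟩
    rw [(R j).map_mul]
    exact hb j hj
  choose! b hb1 hb2 using hstep
  obtain ⟨c, hc00, hc⟩ : ∃ c : ℕ → B, c 0 = c0 ∧ ∀ n, c (n + 1) = b n (c n) * c n :=
    ⟨fun n => Nat.rec c0 (fun k x => b k x * x) n, rfl, fun n => rfl⟩
  have hcr : ∀ n, ∀ j, n ≤ j → (R j).ρ (c n) (e j) ≠ 0 := by
    intro n
    induction n with
    | zero => rw [hc00]; intro j _; exact hc0 j trivial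
    | succ n ih => rw [hc]; exact hb2 _ _ ih
  exact no_tower hp hpm hq hmul hsurj R hbad (fun n => b n (c n)) c hc
    e he1 (fun n => hcr n n le_rfl) (fun n => hb1 _ _ (hcr n))

/-- kernels of the bad representations bounded by `q` -/
def badKer (T : A →ₗ[ℂ] B) (q : Seminorm ℂ B) : Set (Submodule ℂ B) :=
  {P | (∃ R : Rep B q, LinearMap.ker R.ρ = P) ∧ ∃ s ∈ sepSub T, s ∉ P}

theorem badKer_finite {p : ℕ → Seminorm ℂ A} (hp : WithSeminorms p) (hpm : Monotone p)
    [(uniformity B).IsCountablyGenerated]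
    {q : Seminorm ℂ B} (hq : Continuous q)
    {T : A →ₗ[ℂ] B} (hmul : ∀ x y, T (x * y) = T x * T y) (hsurj : Function.Surjective T) :
    (badKer T q).Finite := by
  by_contra hinf
  have hinf' : (badKer T q).Infinite := hinf
  let f := hinf'.natEmbedding
  have h1 : ∀ n, ∃ R : Rep B q, LinearMap.ker R.ρ = (f n : Submodule ℂ B) := fun n => (f n).2.1
  choose R hR using h1
  refine no_infinite hp hpm hq hmul hsurj R ?_ ?_
  · intro n
    obtain ⟨s, hs, hs2⟩ := (f n).2.2
    refine ⟨s, hs, fun h => hs2 ?_⟩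
    rw [← hR]
    exact h
  · intro i j hij
    rw [hR, hR] at hij
    exact f.injective (Subtype.ext hij)

end FiniteMany

end Pool.Agent.Lib.MP_74fee8_an
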