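import Pool.Agent.Lib.MP_74fee8_an.LevelNull
import Pool.Agent.Lib.MP_74fee8_an.Ideal

set_option autoImplicit false

open Filter Topology

namespace Pool.Agent.Lib.MP_74fee8_an

theorem idem_qn {𝔅 : Type} [NormedRing 𝔅] [NormedAlgebra ℂ 𝔅] [CompleteSpace 𝔅] {e X : 𝔅}
    (he : e * e = e) (heX : e * X = X) (hXe : X * e = X) (hX : Qn X) (hs : Qn (e + X)) :
    e = 0 := by
  have h1 : IsUnit (1 - (e + X)) := by
    have := isUnit_of_qn hs (one_ne_zero (α := ℂ))
    rwa [map_one] at this
  obtain ⟨w, hw⟩ := h1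
  have hcomm : Commute X (w : 𝔅) := by
    rw [hw]
    refine Commute.sub_right (Commute.one_right _) (Commute.add_right ?_ (Commute.refl _))
    show X * e = e * X
    rw [heX, hXe]
  have hcomm' : Commute X (↑w⁻¹ : 𝔅) := hcomm.units_inv_right
  have h2 : e * (w : 𝔅) = -X := by
    rw [hw, mul_sub, mul_add, mul_one, he, heX]; abel
  have h3 : e = (-X) * (↑w⁻¹ : 𝔅) := by
    rw [← h2, mul_assoc, Units.mul_inv, mul_one]
  have hpow : ∀ k : ℕ, e ^ (k + 1) = e := by
    intro k
    induction k with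
    | zero => simp
    | succ k ih => rw [pow_succ, ih, he]
  have hcomm'' : Commute (-X) (↑w⁻¹ : 𝔅) := hcomm'.neg_left
  have hb : ∀ k : ℕ, ‖e‖ ≤ ‖X ^ (k + 1)‖ * ‖(↑w⁻¹ : 𝔅)‖ ^ (k + 1) := by
    intro k
    have h4 : e = (-X) ^ (k + 1) * (↑w⁻¹ : 𝔅) ^ (k + 1) := by
      conv_lhs => rw [← hpow k, h3]
      exact hcomm''.mul_pow _
    calc ‖e‖ = ‖(-X) ^ (k + 1) * (↑w⁻¹ : 𝔅) ^ (k + 1)‖ := by rw [← h4]
      _ ≤ ‖(-X) ^ (k + 1)‖ * ‖(↑w⁻¹ : 𝔅) ^ (k + 1)‖ := norm_mul_le _ _
      _ ≤ ‖X ^ (k + 1)‖ * ‖(↑w⁻¹ : 𝔅)‖ ^ (k + 1) := by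
        have e1 : ‖(-X) ^ (k + 1)‖ = ‖X ^ (k + 1)‖ := by
          rw [neg_pow]
          rcases neg_one_pow_eq_or 𝔅 (k + 1) with h | h <;> rw [h] <;> simp
        rw [e1]
        exact mul_le_mul_of_nonneg_left (norm_pow_le' _ (by omega)) (norm_nonneg _)
  set C := ‖(↑w⁻¹ : 𝔅)‖ with hC
  have hC0 : 0 ≤ C := norm_nonneg _
  obtain ⟨N, hN⟩ := hX (1 / (2 * (C + 1))) (by positivity)
  rw [← norm_eq_zero]
  apply le_antisymm _ (norm_nonneg _)
  apply le_of_forall_pos_le_add
  intro ε hε
  rw [zero_add]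
  obtain ⟨M, hM⟩ := exists_pow_lt_of_lt_one hε (show (1 / 2 : ℝ) < 1 by norm_num)
  have h5 := hN (max N M + 1) (by have := le_max_left N M; omega)
  calc ‖e‖ ≤ ‖X ^ (max N M + 1)‖ * C ^ (max N M + 1) := hb _
    _ ≤ (1 / (2 * (C + 1))) ^ (max N M + 1) * (C + 1) ^ (max N M + 1) := by
      gcongr
      linarith
    _ = (1 / 2) ^ (max N M + 1) := by
      rw [← mul_pow]
      congr 1
      field_simp
    _ ≤ (1 / 2) ^ M := pow_le_pow_of_le_one (by norm_num) (by norm_num)
      (by have := le_max_right N M; omega)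
    _ ≤ ε := hM.le

section lm

variable {B : Type} [NonUnitalRing B] [Module ℂ B] [IsScalarTower ℂ B B] [SMulCommClass ℂ B B]

omit [IsScalarTower ℂ B B] [SMulCommClass ℂ B B] in
/-- left multiplication by an element of the unitization -/
def lm (u : Unitization ℂ B) (x : B) : B := u.fst • x + u.snd * x

omit [IsScalarTower ℂ B B] [SMulCommClass ℂ B B] in
theorem inr_lm (u : Unitization ℂ B) (x : B) :
    (Unitization.inr (lm u x) : Unitization ℂ B) = u * Unitization.inr x := by
  rw [lm]
  ext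
  · simp
  · simp

theorem lm_mul (u v : Unitization ℂ B) (x : B) : lm (u * v) x = lm u (lm v x) := by
  apply Unitization.inr_injective (R := ℂ)
  rw [inr_lm, inr_lm, inr_lm, mul_assoc]

omit [IsScalarTower ℂ B B] [SMulCommClass ℂ B B] in
theorem lm_one (x : B) : lm (1 : Unitization ℂ B) x = x := by
  simp [lm]

theorem mul_lm (u : Unitization ℂ B) (x y : B) : y * lm u x = rm u y * x := by
  apply Unitization.inr_injective (R := ℂ)
  rw [Unitization.inr_mul, Unitization.inr_mul, inr_lm, inr_rm, mul_assoc]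

theorem corner_alg (b' t d : B) (z : ℂ) :
    b' * (t - t * (z • (b' * t * d * b')) * t) =
      b' * t - z • (b' * t * (b' * t * d * (b' * t))) := by
  rw [mul_sub, mul_smul_comm, smul_mul_assoc, mul_smul_comm]
  simp only [mul_assoc]

theorem qn_of_null {q : Seminorm ℂ B} (hq : ∀ x y, q (x * y) ≤ q x * q y)
    {u : Unitization ℂ B} (h : q1 q u = 0) : QN q u := by
  intro ε hε
  refine ⟨1, fun k hk => ?_⟩
  refine (q1_pow hq u k).trans ?_
  rw [h, zero_pow (by omega)]
  positivity

end lm

section MinimalT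

variable {A : Type} [NonUnitalRing A] [Module ℂ A] [IsScalarTower ℂ A A] [SMulCommClass ℂ A A]
  [UniformSpace A] [IsUniformAddGroup A] [IsTopologicalRing A] [ContinuousSMul ℂ A]
  [CompleteSpace A] [T2Space A]
variable {B : Type} [NonUnitalRing B] [Module ℂ B] [IsScalarTower ℂ B B] [SMulCommClass ℂ B B]
  [UniformSpace B] [IsUniformAddGroup B] [IsTopologicalRing B] [ContinuousSMul ℂ B]
  [CompleteSpace B] [T2Space B]

theorem exists_minimal {p : ℕ → Seminorm ℂ A} (hp : WithSeminorms p) (hpm : Monotone p)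
    {q : ℕ → Seminorm ℂ B} (hq : WithSeminorms q) (hqm : Monotone q)
    {T : A →ₗ[ℂ] B} (hmul : ∀ x y, T (x * y) = T x * T y) (hsurj : Function.Surjective T)
    {r : Seminorm ℂ B} (hr : Continuous r) {a : B} (ha : ∃ b, r (b * a) ≠ 0) :
    ∃ u : Unitization ℂ B, (∃ b, r (b * lm u a) ≠ 0) ∧ ∀ u' : Unitization ℂ B,
      (∃ b, r (b * lm u' (lm u a)) ≠ 0) → ∀ s ∈ sepSub T, ∀ ε > 0, ∃ s' ∈ sepSub T,
        r (s * lm u a - s' * lm u' (lm u a)) < ε := by
  by_contra hcon
  push Not at hcon
  choose! g hg1 s hs ε hε hsε using hcon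
  obtain ⟨w, hw0, hw⟩ : ∃ w : ℕ → Unitization ℂ B, w 0 = 1 ∧ ∀ n, w (n + 1) = g (w n) * w n :=
    ⟨fun n => Nat.rec 1 (fun _ x => g x * x) n, rfl, fun n => rfl⟩
  have hbig : ∀ n, ∃ b, r (b * lm (w n) a) ≠ 0 := by
    intro n
    induction n with
    | zero => rw [hw0, lm_one]; exact ha
    | succ n ih => rw [hw, lm_mul]; exact hg1 _ ih
  have hrt : Continuous (r.comp (rm (Unitization.inr a))) := hr.comp (continuous_rm _)
  obtain ⟨n, hn⟩ := dcc hp hpm hq hqm hmul hsurj hrt (fun n => g (w n)) w hw0 hw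
  obtain ⟨s', hs', hlt⟩ := hn (s (w n)) (hs _ (hbig n)) (ε (w n)) (hε _ (hbig n))
  have h1 := hsε _ (hbig n) s' hs'
  have h2 : (r.comp (rm (Unitization.inr a))) (rm (w n) (s (w n)) - rm (w (n + 1)) s') =
      r (s (w n) * lm (w n) a - s' * lm (g (w n)) (lm (w n) a)) := by
    rw [Seminorm.comp_apply, ← lm_mul, ← hw, mul_lm, mul_lm, map_sub]
    congr 2
    · rw [rm_apply]; simp
    · rw [rm_apply]; simp
  rw [h2] at hlt
  exact absurd h1 (not_le.2 hlt)

/-- The separating ideal of a semisimple Frechet algebra is separated by closed maximal modular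
left ideals. -/
theorem exists_maxLeft {p : ℕ → Seminorm ℂ A} (hp : WithSeminorms p) (hpm : Monotone p)
    {q : ℕ → Seminorm ℂ B} (hq : WithSeminorms q) (hqm : Monotone q)
    (hqs : ∀ n x y, q n (x * y) ≤ q n x * q n y)
    {T : A →ₗ[ℂ] B} (hmul : ∀ x y, T (x * y) = T x * T y) (hsurj : Function.Surjective T)
    (hss : SS B) {a : B} (ha : a ∈ sepSub T) (ha0 : a ≠ 0) :
    ∃ L : Submodule ℂ B, IsClosed (L : Set B) ∧ MaxLeft L ∧ a ∉ L := by
  have hqc : ∀ i, Continuous (q i) := fun i => hq.continuous_seminorm i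
  -- a level at which `B a` is not null
  obtain ⟨m, hm⟩ : ∃ m, ∃ b, q m (b * a) ≠ 0 := by
    by_contra hcon
    push Not at hcon
    have hBa : ∀ b, b * a = 0 := by
      intro b
      by_contra hne
      obtain ⟨i, hi⟩ := hq.separating_of_T1 _ hne
      exact hi (hcon i b)
    apply ha0
    apply hss
    intro b
    refine ⟨-(a * b), ?_, ?_⟩
    · rw [add_neg_cancel, mul_neg, mul_assoc, ← mul_assoc b, hBa, zero_mul, mul_zero, neg_zero]
    · rw [add_neg_cancel, neg_mul, mul_assoc, ← mul_assoc b, hBa, zero_mul, mul_zero, neg_zero]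
  set r := q m with hr
  have hrc : Continuous r := hqc m
  have hrs : ∀ x y, r (x * y) ≤ r x * r y := hqs m
  have hrnn : ∀ x, 0 ≤ r x := fun x => apply_nonneg r x
  have hnull_left : ∀ x y, r y = 0 → r (x * y) = 0 := by
    intro x y hy
    apply le_antisymm _ (hrnn _)
    refine (hrs x y).trans ?_
    rw [hy, mul_zero]
  have hnull_right : ∀ x y, r x = 0 → r (x * y) = 0 := by
    intro x y hy
    apply le_antisymm _ (hrnn _)
    refine (hrs x y).trans ?_
    rw [hy, zero_mul]
  have hnull_add : ∀ x y, r x = 0 → r y = 0 → r (x + y) = 0 := by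
    intro x y hx hy
    apply le_antisymm _ (hrnn _)
    refine (map_add_le_add r x y).trans ?_
    rw [hx, hy, add_zero]
  have hnull_smul : ∀ (z : ℂ) x, r x = 0 → r (z • x) = 0 := by
    intro z x hx
    rw [map_smul_eq_mul, hx, mul_zero]
  obtain ⟨u, hbig, hmin⟩ := exists_minimal hp hpm hq hqm hmul hsurj hrc hm
  set t : B := lm u a with ht
  have htS : t ∈ sepSub T := by
    rw [ht, lm]
    exact (sepSub T).add_mem ((sepSub T).smul_mem _ ha) (mul_left_mem_sepSub hmul hsurj _ ha)
  -- key dichotomy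
  have key : ∀ b'' ∈ sepSub T, ¬ QN r (Unitization.inr (b'' * t) : Unitization ℂ B) →
      ∃ z : ℂ, z ≠ 0 ∧ ¬ LI r (1 - Unitization.inr ((z⁻¹ • b'') * t) : Unitization ℂ B) ∧
        ∀ b, r (b * (t - t * (z⁻¹ • b'') * t)) = 0 := by
    intro b'' hb'' hQ
    have h1 : ∃ z : ℂ, z ≠ 0 ∧ ¬ LI r (algebraMap ℂ _ z -
        (Unitization.inr (b'' * t) : Unitization ℂ B)) := by
      by_contra hno
      push Not at hno
      exact hQ (qn_of_LI hrs hno)
    obtain ⟨z, hz, hzLI⟩ := h1
    set b' : B := z⁻¹ • b'' with hb'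
    have hb'S : b' ∈ sepSub T := (sepSub T).smul_mem _ hb''
    have hLI : ¬ LI r (1 - Unitization.inr (b' * t) : Unitization ℂ B) := by
      intro h
      apply hzLI
      apply LI_smul hz
      rw [hb', smul_mul_assoc, Unitization.inr_smul] at h
      exact h
    refine ⟨z, hz, hLI, ?_⟩
    by_contra hno
    push Not at hno
    have hlm : lm (1 - Unitization.inr (t * b')) t = t - t * b' * t := by
      apply Unitization.inr_injective (R := ℂ)
      rw [inr_lm, Unitization.inr_sub, sub_mul, one_mul, Unitization.inr_mul (R := ℂ) (t * b') t]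
    obtain ⟨s', hs', hlt⟩ := hmin (1 - Unitization.inr (t * b')) (by rw [hlm]; exact hno) b' hb'S 1
      one_pos
    rw [hlm] at hlt
    apply hLI
    refine ⟨1 + Unitization.inr (s' * t), ?_⟩
    have e1 : (1 + Unitization.inr (s' * t)) * (1 - Unitization.inr (b' * t)) - 1 =
        -(Unitization.inr (b' * t - s' * (t - t * b' * t)) : Unitization ℂ B) := by
      rw [Unitization.inr_sub, Unitization.inr_mul (R := ℂ) s' (t - t * b' * t),
        Unitization.inr_sub, Unitization.inr_mul (R := ℂ) (t * b') t,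
        Unitization.inr_mul (R := ℂ) t b', Unitization.inr_mul (R := ℂ) s' t,
        Unitization.inr_mul (R := ℂ) b' t]
      noncomm_ring
    rw [e1, map_neg_eq_map, q1_inr]
    exact hlt
  -- a non-quasinilpotent left multiple with multiplier in the separating ideal
  obtain ⟨b1, hb1S, hb1⟩ : ∃ b1 ∈ sepSub T,
      ¬ QN r (Unitization.inr (b1 * t) : Unitization ℂ B) := by
    have h1 : ∃ b, ¬ QN r (Unitization.inr (b * t) : Unitization ℂ B) := by
      by_contra hno
      push Not at hno
      obtain ⟨b, hb⟩ := hbig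
      exact hb (level_null hp hpm hq hqm hqs hmul hsurj hss m htS hno b)
    obtain ⟨b, hb⟩ := h1
    refine ⟨b * t * b, mul_right_mem_sepSub hmul hsurj _ (mul_left_mem_sepSub hmul hsurj _ htS),
      fun h => hb ?_⟩
    apply qn_of_sq hrs
    rw [pow_two, ← Unitization.inr_mul]
    have e1 : b * t * (b * t) = b * t * b * t := by rw [mul_assoc (b * t)]
    rw [e1]
    exact h
  obtain ⟨z0, hz0, hLI0, hnull0⟩ := key b1 hb1S hb1
  set b' : B := z0⁻¹ • b1 with hb'
  have hb'S : b' ∈ sepSub T := (sepSub T).smul_mem _ hb1S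
  set c : B := b' * t with hc
  have hcS : c ∈ sepSub T := mul_left_mem_sepSub hmul hsurj _ htS
  have hc0 : r c ≠ 0 := by
    intro h
    apply hLI0
    refine ⟨1, ?_⟩
    have e1 : (1 : Unitization ℂ B) * (1 - Unitization.inr c) - 1 = -Unitization.inr c := by
      rw [one_mul]; abel
    rw [e1, map_neg_eq_map, q1_inr, h]
    exact one_pos
  have hcc : r (c - c * c) = 0 := by
    have h1 := hnull0 b'
    have e1 : b' * (t - t * b' * t) = c - c * c := by
      rw [mul_sub, hc]
      simp only [mul_assoc]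
    rwa [e1] at h1
  have hcc' : r (c * c - c) = 0 := by rw [map_sub_rev]; exact hcc
  have hccc : r (c * c * c - c) = 0 := by
    have e1 : c * c * c - c = (c * c - c) * c + (c * c - c) := by rw [sub_mul]; abel
    rw [e1]
    exact hnull_add _ _ (hnull_right _ _ hcc') hcc'
  -- corner elements are scalar
  have hcorner_aux : ∀ d, ¬ QN r (Unitization.inr (c * d * c) : Unitization ℂ B) →
      ∃ z : ℂ, r (c * d * c - z • c) = 0 := by
    intro d hd
    have hS : c * d * b' ∈ sepSub T := mul_left_mem_sepSub hmul hsurj _ hb'S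
    have e0 : c * d * b' * t = c * d * c := by rw [hc]; simp only [mul_assoc]
    obtain ⟨z, hz, -, hnull⟩ := key (c * d * b') hS (by rw [e0]; exact hd)
    have h1 := hnull b'
    have e1 : b' * (t - t * (z⁻¹ • (c * d * b')) * t) = c - z⁻¹ • (c * (c * d * c)) :=
      corner_alg b' t d z⁻¹
    rw [e1] at h1
    refine ⟨z, ?_⟩
    have e2 : c * d * c - z • c = (-z) • (c - z⁻¹ • (c * (c * d * c))) +
        (-1 : ℂ) • ((c * c - c) * (d * c)) := by
      rw [smul_sub, smul_smul, neg_mul, mul_inv_cancel₀ hz, sub_mul, smul_sub]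
      simp only [neg_smul, one_smul, mul_assoc]
      abel
    rw [e2]
    exact hnull_add _ _ (hnull_smul _ _ h1) (hnull_smul _ _ (hnull_right _ _ hcc'))
  have hcorner : ∀ d, ∃ z : ℂ, r (c * d * c - z • c) = 0 := by
    intro d
    by_cases hd : QN r (Unitization.inr (c * d * c) : Unitization ℂ B)
    swap
    · exact hcorner_aux d hd
    by_cases hd1 : QN r (Unitization.inr (c * (c + d) * c) : Unitization ℂ B)
    · exfalso
      obtain ⟨𝔅, _, _, _, Lh, hLh⟩ := exists_banach hrs
      have heq : ∀ x y : B, r (x - y) = 0 → Lh (Unitization.inr x) = Lh (Unitization.inr y) := by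
        intro x y hxy
        rw [← sub_eq_zero, ← map_sub, ← norm_eq_zero, hLh, ← Unitization.inr_sub, q1_inr, hxy]
      set e : 𝔅 := Lh (Unitization.inr c) with he
      set X : 𝔅 := Lh (Unitization.inr (c * d * c)) with hX
      have h1 : e * e = e := by
        rw [he, ← map_mul, ← Unitization.inr_mul]
        exact heq _ _ hcc'
      have h2 : e * X = X := by
        rw [he, hX, ← map_mul, ← Unitization.inr_mul]
        apply heq
        have e1 : c * (c * d * c) - c * d * c = (c * c - c) * (d * c) := by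
          rw [sub_mul]; simp only [mul_assoc]
        rw [e1]
        exact hnull_right _ _ hcc'
      have h3 : X * e = X := by
        rw [he, hX, ← map_mul, ← Unitization.inr_mul]
        apply heq
        have e1 : c * d * c * c - c * d * c = c * d * (c * c - c) := by
          rw [mul_sub]; simp only [mul_assoc]
        rw [e1]
        exact hnull_left _ _ hcc'
      have h4 : Lh (Unitization.inr (c * (c + d) * c)) = e + X := by
        rw [he, hX, ← map_add, ← Unitization.inr_add]
        apply heq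
        have e1 : c * (c + d) * c - (c + c * d * c) = c * c * c - c := by
          rw [mul_add, add_mul]; abel
        rw [e1]
        exact hccc
      have h5 : e = 0 := by
        refine idem_qn h1 h2 h3 ((qn_iff Lh hLh _).1 hd) ?_
        rw [← h4]
        exact (qn_iff Lh hLh _).1 hd1
      apply hc0
      rw [← q1_inr r c, ← hLh, ← he, h5, norm_zero]
    · obtain ⟨z, hz⟩ := hcorner_aux (c + d) hd1
      refine ⟨z - 1, ?_⟩
      have e1 : c * d * c - (z - 1) • c = (c * (c + d) * c - z • c) + (-1 : ℂ) • (c * c * c - c) := by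
        rw [mul_add, add_mul, sub_smul, smul_sub]
        simp only [neg_smul, one_smul]
        abel
      rw [e1]
      exact hnull_add _ _ hz (hnull_smul _ _ hccc)
  -- the ideal
  let L : Submodule ℂ B :=
    { carrier := {b | ∀ d, r (d * b * c) = 0}
      zero_mem' := by intro d; rw [mul_zero, zero_mul, map_zero]
      add_mem' := by
        intro x y hx hy d
        rw [mul_add, add_mul]
        exact hnull_add _ _ (hx d) (hy d)
      smul_mem' := by
        intro z x hx d
        rw [mul_smul_comm, smul_mul_assoc]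
        exact hnull_smul _ _ (hx d) }
  have hLmem : ∀ b, b ∈ L ↔ ∀ d, r (d * b * c) = 0 := fun b => Iff.rfl
  have hLleft : ∀ b x, x ∈ L → b * x ∈ L := by
    intro b x hx
    rw [hLmem] at hx ⊢
    intro d
    rw [← mul_assoc d b x]
    exact hx (d * b)
  have hcL : c ∉ L := by
    intro h
    have h1 := (hLmem c).1 h c
    apply hc0
    have e1 : c = c * c * c + (-1 : ℂ) • (c * c * c - c) := by
      simp only [neg_smul, one_smul]; abel
    rw [e1]
    exact hnull_add _ _ h1 (hnull_smul _ _ hccc)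
  have hLclosed : IsClosed (L : Set B) := by
    have h1 : (L : Set B) = ⋂ d, {b | r (d * b * c) = 0} := by
      ext b
      simp only [SetLike.mem_coe, Set.mem_iInter]
      exact hLmem b
    rw [h1]
    refine isClosed_iInter fun d => ?_
    have h2 : Continuous fun b : B => r (d * b * c) :=
      hrc.comp ((continuous_mul_const c).comp (continuous_const_mul d))
    exact isClosed_singleton.preimage h2
  have hcyc : ∀ b, b ∉ L → ∃ d0, r (c - d0 * b * c) = 0 := by
    intro b hb
    have h1 : ∃ d, r (c * (d * b) * c) ≠ 0 := by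
      by_contra hno
      push Not at hno
      apply hb
      rw [hLmem]
      intro d
      rw [mul_assoc]
      refine level_null hp hpm hq hqm hqs hmul hsurj hss m
        (mul_left_mem_sepSub hmul hsurj b hcS) (fun d' => ?_) d
      apply qn_of_sq hrs
      apply qn_of_null hrs
      rw [pow_two, ← Unitization.inr_mul, q1_inr]
      have e1 : d' * (b * c) * (d' * (b * c)) = d' * b * (c * (d' * b) * c) := by
        simp only [mul_assoc]
      rw [e1]
      exact hnull_left _ _ (hno d')
    obtain ⟨d, hd⟩ := h1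
    obtain ⟨z, hz⟩ := hcorner (d * b)
    have hz0 : z ≠ 0 := by
      rintro rfl
      rw [zero_smul, sub_zero] at hz
      exact hd hz
    refine ⟨z⁻¹ • (c * d), ?_⟩
    have e1 : c - z⁻¹ • (c * d) * b * c = (-z⁻¹) • (c * (d * b) * c - z • c) := by
      rw [smul_mul_assoc, smul_mul_assoc, smul_sub, smul_smul, neg_mul, inv_mul_cancel₀ hz0]
      simp only [neg_smul, one_smul, mul_assoc]
      abel
    rw [e1]
    exact hnull_smul _ _ hz
  refine ⟨L, hLclosed, ⟨hLleft, ⟨c, ?_⟩, ?_, ?_⟩, ?_⟩
  · intro b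
    rw [hLmem]
    intro d
    have e1 : d * (b - b * c) * c = d * b * (c - c * c) := by
      rw [mul_sub, sub_mul, mul_sub]; simp only [mul_assoc]
    rw [e1]
    exact hnull_left _ _ hcc
  · intro h
    apply hcL
    rw [h]; trivial
  · intro L' hL' hle
    by_cases hle' : L' ≤ L
    · left; exact le_antisymm hle' hle
    · right
      rw [SetLike.not_le_iff_exists] at hle'
      obtain ⟨b, hbL', hbL⟩ := hle'
      obtain ⟨d0, hd0⟩ := hcyc b hbL
      rw [eq_top_iff]
      intro x _
      have h1 : x - x * d0 * b ∈ L := by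
        rw [hLmem]
        intro d
        have e1 : d * (x - x * d0 * b) * c = d * x * (c - d0 * b * c) := by
          rw [mul_sub, sub_mul, mul_sub]; simp only [mul_assoc]
        rw [e1]
        exact hnull_left _ _ hd0
      have h2 := L'.add_mem (hle h1) (hL' (x * d0) b hbL')
      rwa [sub_add_cancel] at h2
  · intro haL
    apply hcL
    have e1 : c = rm u b' * a := by rw [hc, ht, mul_lm]
    rw [e1]
    exact hLleft _ _ haL

end MinimalT

end Pool.Agent.Lib.MP_74fee8_an
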