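import Pool.Agent.Lib.MP_74fee8_an.Main
import Pool.Agent.Lib.MP_74fee8_an.MinimalT

set_option autoImplicit false

open Filter Topology

namespace Pool.Agent.Lib.MP_74fee8_an

section Full

variable {A : Type} [NonUnitalRing A] [Module ℂ A] [IsScalarTower ℂ A A] [SMulCommClass ℂ A A]
  [UniformSpace A] [IsUniformAddGroup A] [IsTopologicalRing A] [ContinuousSMul ℂ A]
  [CompleteSpace A] [T2Space A]
variable {B : Type} [NonUnitalRing B] [Module ℂ B] [IsScalarTower ℂ B B] [SMulCommClass ℂ B B]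
  [UniformSpace B] [IsUniformAddGroup B] [IsTopologicalRing B] [ContinuousSMul ℂ B]
  [CompleteSpace B] [T2Space B]

/-- Every algebra isomorphism from a Frechet algebra onto a semisimple Frechet algebra is
continuous. -/
theorem continuous_of_semisimple
    (hA : ∃ p : ℕ → Seminorm ℂ A, WithSeminorms p ∧ ∀ n x y, p n (x * y) ≤ p n x * p n y)
    (hB : ∃ q : ℕ → Seminorm ℂ B, WithSeminorms q ∧ ∀ n x y, q n (x * y) ≤ q n x * q n y)
    (hss : SS B) (T : A →ₗ[ℂ] B) (hmul : ∀ x y, T (x * y) = T x * T y)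
    (hbij : Function.Bijective T) : Continuous T := by
  obtain ⟨p0, hp0, hps0⟩ := hA
  obtain ⟨q0, hq0, hqs0⟩ := hB
  obtain ⟨p, hp, hpm, hps⟩ := exists_mono p0 hp0 hps0
  obtain ⟨q, hq, hqm, hqs⟩ := exists_mono q0 hq0 hqs0
  exact homeo hp hps hq hqs T hmul hbij (fun x hx hx0 =>
    exists_maxLeft hp hpm hq hqm hqs hmul hbij.2 hss hx hx0)

end Full

end Pool.Agent.Lib.MP_74fee8_an
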