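import Pool.Agent.Lib.MP_74fee8_an.DCC

set_option autoImplicit false

open Filter Topology

namespace Pool.Agent.Lib.MP_74fee8_an

section Level

variable {B : Type} [NonUnitalRing B] [Module ℂ B] [IsScalarTower ℂ B B] [SMulCommClass ℂ B B]

omit [IsScalarTower ℂ B B] [SMulCommClass ℂ B B] in
/-- the standard extension of a seminorm to the unitization -/
noncomputable def q1 (q : Seminorm ℂ B) : Seminorm ℂ (Unitization ℂ B) where
  toFun u := ‖u.fst‖ + q u.snd
  map_zero' := by simp
  add_le' u v := by
    have h1 := norm_add_le u.fst v.fst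
    have h2 := map_add_le_add q u.snd v.snd
    rw [Unitization.fst_add, Unitization.snd_add]
    linarith
  neg' u := by
    rw [Unitization.fst_neg, Unitization.snd_neg, norm_neg, map_neg_eq_map]
  smul' c u := by
    rw [Unitization.fst_smul, Unitization.snd_smul, norm_smul, map_smul_eq_mul]
    ring

omit [IsScalarTower ℂ B B] [SMulCommClass ℂ B B] in
theorem q1_apply (q : Seminorm ℂ B) (u : Unitization ℂ B) : q1 q u = ‖u.fst‖ + q u.snd := rfl

omit [IsScalarTower ℂ B B] [SMulCommClass ℂ B B] in
theorem q1_inr (q : Seminorm ℂ B) (b : B) : q1 q (Unitization.inr b : Unitization ℂ B) = q b := by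
  rw [q1_apply]; simp

omit [IsScalarTower ℂ B B] [SMulCommClass ℂ B B] in
theorem q1_one (q : Seminorm ℂ B) : q1 q (1 : Unitization ℂ B) = 1 := by
  rw [q1_apply]; simp

theorem q1_mul {q : Seminorm ℂ B} (hq : ∀ x y, q (x * y) ≤ q x * q y) (u v : Unitization ℂ B) :
    q1 q (u * v) ≤ q1 q u * q1 q v := by
  rw [q1_apply, q1_apply, q1_apply, Unitization.fst_mul, Unitization.snd_mul, norm_mul]
  have h1 := hq u.snd v.snd
  have h2 : q (u.fst • v.snd + v.fst • u.snd + u.snd * v.snd) ≤
      ‖u.fst‖ * q v.snd + ‖v.fst‖ * q u.snd + q u.snd * q v.snd := by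
    refine (map_add_le_add _ _ _).trans ?_
    have h3 := map_add_le_add q (u.fst • v.snd) (v.fst • u.snd)
    rw [map_smul_eq_mul, map_smul_eq_mul] at h3
    linarith
  nlinarith [h2]

theorem q1_pow {q : Seminorm ℂ B} (hq : ∀ x y, q (x * y) ≤ q x * q y) (u : Unitization ℂ B)
    (n : ℕ) : q1 q (u ^ n) ≤ q1 q u ^ n := by
  induction n with
  | zero => rw [pow_zero, pow_zero, q1_one]
  | succ n ih =>
    rw [pow_succ, pow_succ]
    refine (q1_mul hq _ _).trans ?_
    exact mul_le_mul_of_nonneg_right ih (apply_nonneg _ _)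

/-- The Banach algebra at level `q`: the unitization embeds isometrically in a Banach algebra. -/
theorem exists_banach {q : Seminorm ℂ B} (hq : ∀ x y, q (x * y) ≤ q x * q y) :
    ∃ (𝔅 : Type) (_ : NormedRing 𝔅) (_ : NormedAlgebra ℂ 𝔅) (_ : CompleteSpace 𝔅)
      (L : Unitization ℂ B →ₐ[ℂ] 𝔅), ∀ u, ‖L u‖ = q1 q u := by
  letI : SeminormedAddCommGroup (Unitization ℂ B) :=
    AddGroupSeminorm.toSeminormedAddCommGroup (q1 q).toAddGroupSeminorm
  have hn : ∀ b : Unitization ℂ B, ‖b‖ = q1 q b := fun b => rfl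
  letI : NormedSpace ℂ (Unitization ℂ B) := ⟨fun a b => by rw [hn, hn, map_smul_eq_mul]⟩
  let X := UniformSpace.Completion (Unitization ℂ B)
  let ι : Unitization ℂ B →L[ℂ] X := UniformSpace.Completion.toComplL
  have hι : DenseRange ι := UniformSpace.Completion.denseRange_coe
  have hιu : IsUniformInducing ι := UniformSpace.Completion.isUniformInducing_coe _
  have hιn : ∀ u, ‖ι u‖ = q1 q u := fun u => UniformSpace.Completion.norm_coe u
  let ℓ : Unitization ℂ B → (Unitization ℂ B →L[ℂ] Unitization ℂ B) := fun u =>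
    (LinearMap.mulLeft ℂ u).mkContinuous (q1 q u) (fun v => by
      rw [hn, hn]; exact q1_mul hq u v)
  have hℓ : ∀ u v, ℓ u v = u * v := fun u v => rfl
  let L : Unitization ℂ B → (X →L[ℂ] X) := fun u => (ι.comp (ℓ u)).extend ι
  have hL : ∀ u v, L u (ι v) = ι (u * v) := fun u v =>
    ContinuousLinearMap.extend_eq _ hι hιu v
  have hext : ∀ (S T : X →L[ℂ] X), (∀ e, S (ι e) = T (ι e)) → S = T := by
    intro S T h
    apply ContinuousLinearMap.coeFn_injective
    apply DenseRange.equalizer hι S.continuous T.continuous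
    funext e
    exact h e
  have hLone : L 1 = 1 := by
    apply hext; intro e; rw [hL, one_mul]; rfl
  have hLmul : ∀ u v, L (u * v) = L u * L v := by
    intro u v
    apply hext; intro e
    show L (u * v) (ι e) = L u (L v (ι e))
    rw [hL, hL, hL, mul_assoc]
  have hLadd : ∀ u v, L (u + v) = L u + L v := by
    intro u v
    apply hext; intro e
    rw [add_apply, hL, hL, hL, add_mul, map_add]
  have hLzero : L 0 = 0 := by
    have h := hLadd 0 0
    rw [add_zero] at h
    exact left_eq_add.1 h
  have hLalg : ∀ c : ℂ, L (algebraMap ℂ _ c) = algebraMap ℂ _ c := by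
    intro c
    apply hext; intro e
    rw [hL, Algebra.algebraMap_eq_smul_one, Algebra.algebraMap_eq_smul_one, smul_mul_assoc,
      one_mul, map_smul]
    rfl
  let Lhom : Unitization ℂ B →ₐ[ℂ] (X →L[ℂ] X) :=
    { toFun := L, map_one' := hLone, map_mul' := hLmul, map_zero' := hLzero, map_add' := hLadd,
      commutes' := hLalg }
  refine ⟨X →L[ℂ] X, inferInstance, inferInstance, inferInstance, Lhom, fun u => ?_⟩
  show ‖L u‖ = q1 q u
  apply le_antisymm
  · apply ContinuousLinearMap.opNorm_le_bound _ (apply_nonneg _ _)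
    intro x
    refine hι.induction_on x ?_ ?_
    · exact isClosed_le ((L u).continuous.norm) (continuous_const.mul continuous_norm)
    · intro v
      rw [hL, hιn, hιn]
      exact q1_mul hq u v
  · have h1 := (L u).le_opNorm (ι 1)
    rw [hL, mul_one, hιn, hιn, q1_one, mul_one] at h1
    exact h1

end Level

end Pool.Agent.Lib.MP_74fee8_an
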