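import Pool.Agent.Lib.MP_74fee8_an.Level
import Pool.Agent.Lib.MP_74fee8_an.BanachSpec

set_option autoImplicit false

open Filter Topology

namespace Pool.Agent.Lib.MP_74fee8_an

section LevelQN

variable {B : Type} [NonUnitalRing B] [Module ℂ B] [IsScalarTower ℂ B B] [SMulCommClass ℂ B B]

/-- quasinilpotent at level `q` -/
def QN (q : Seminorm ℂ B) (u : Unitization ℂ B) : Prop :=
  ∀ ε > 0, ∃ N : ℕ, ∀ k ≥ N, q1 q (u ^ k) ≤ ε ^ k

/-- left invertible at level `q` -/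
def LI (q : Seminorm ℂ B) (u : Unitization ℂ B) : Prop := ∃ v, q1 q (v * u - 1) < 1

theorem qn_iff {q : Seminorm ℂ B} {𝔅 : Type} [NormedRing 𝔅] [NormedAlgebra ℂ 𝔅]
    (L : Unitization ℂ B →ₐ[ℂ] 𝔅) (hL : ∀ u, ‖L u‖ = q1 q u) (u : Unitization ℂ B) :
    QN q u ↔ Qn (L u) := by
  constructor
  · intro h ε hε
    obtain ⟨N, hN⟩ := h ε hε
    exact ⟨N, fun k hk => by rw [← map_pow, hL]; exact hN k hk⟩
  · intro h ε hε
    obtain ⟨N, hN⟩ := h ε hε
    exact ⟨N, fun k hk => by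
      have := hN k hk
      rwa [← map_pow, hL] at this⟩

theorem exists_left_inv_of_LI {q : Seminorm ℂ B} {𝔅 : Type} [NormedRing 𝔅] [NormedAlgebra ℂ 𝔅]
    [CompleteSpace 𝔅] (L : Unitization ℂ B →ₐ[ℂ] 𝔅) (hL : ∀ u, ‖L u‖ = q1 q u)
    {u : Unitization ℂ B} (h : LI q u) : ∃ v, v * L u = 1 := by
  obtain ⟨v, hv⟩ := h
  have h1 : IsUnit (L v * L u) := by
    have h2 := isUnit_one_sub_of_norm_lt_one (x := 1 - L v * L u) (by
      rw [norm_sub_rev, ← map_mul, ← map_one L, ← map_sub, hL]; exact hv)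
    rwa [sub_sub_cancel] at h2
  obtain ⟨w, hw⟩ := h1
  exact ⟨(↑w⁻¹ : 𝔅) * L v, by rw [mul_assoc, ← hw, Units.inv_mul]⟩

theorem qn_of_LI {q : Seminorm ℂ B} (hq : ∀ x y, q (x * y) ≤ q x * q y) {u : Unitization ℂ B}
    (h : ∀ z : ℂ, z ≠ 0 → LI q (algebraMap ℂ _ z - u)) : QN q u := by
  obtain ⟨𝔅, _, _, _, L, hL⟩ := exists_banach hq
  rw [qn_iff L hL]
  apply qn_of_spectrum
  apply spectrum_subset_of_left (Set.finite_singleton 0)
  intro z hz
  obtain ⟨v, hv⟩ := exists_left_inv_of_LI L hL (h z hz)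
  refine ⟨v, ?_⟩
  rwa [map_sub, AlgHom.commutes] at hv

omit [IsScalarTower ℂ B B] [SMulCommClass ℂ B B] in
theorem qn_of_bound [IsScalarTower ℂ B B] [SMulCommClass ℂ B B] {q : Seminorm ℂ B}
    {u : Unitization ℂ B} (h : ∀ ε > 0, ∃ C : ℝ, ∃ N : ℕ, ∀ k ≥ N, q1 q (u ^ k) ≤ C * ε ^ k) :
    QN q u := by
  intro ε hε
  obtain ⟨C, N, hN⟩ := h (ε / 2) (by positivity)
  obtain ⟨M, hM⟩ : ∃ M : ℕ, C * (1 / 2 : ℝ) ^ M ≤ 1 := by
    obtain ⟨M, hM⟩ := exists_pow_lt_of_lt_one (show (0 : ℝ) < 1 / (|C| + 1) by positivity)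
      (show (1 / 2 : ℝ) < 1 by norm_num)
    refine ⟨M, ?_⟩
    rw [lt_div_iff₀ (by positivity)] at hM
    have h1 : (0 : ℝ) < (1 / 2) ^ M := by positivity
    have h2 := le_abs_self C
    nlinarith
  refine ⟨max N M, fun k hk => ?_⟩
  have hkN : N ≤ k := le_trans (le_max_left _ _) hk
  have hkM : M ≤ k := le_trans (le_max_right _ _) hk
  refine (hN k hkN).trans ?_
  rw [div_pow]
  have h1 : C * (1 / 2 : ℝ) ^ k ≤ 1 := by
    by_cases hC : 0 ≤ C
    · refine le_trans ?_ hM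
      exact mul_le_mul_of_nonneg_left
        (pow_le_pow_of_le_one (by norm_num) (by norm_num) hkM) hC
    · push Not at hC
      have : C * (1 / 2 : ℝ) ^ k ≤ 0 := mul_nonpos_of_nonpos_of_nonneg hC.le (by positivity)
      linarith
  have h2 : (0 : ℝ) ≤ ε ^ k := by positivity
  calc C * (ε ^ k / 2 ^ k) = (C * (1 / 2 : ℝ) ^ k) * ε ^ k := by
        rw [one_div, inv_pow]; ring
    _ ≤ 1 * ε ^ k := mul_le_mul_of_nonneg_right h1 h2
    _ = ε ^ k := one_mul _

theorem mul_pow_succ_comm (u v : Unitization ℂ B) (k : ℕ) :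
    (v * u) ^ (k + 1) = v * (u * v) ^ k * u := by
  induction k with
  | zero => simp
  | succ k ih =>
    rw [pow_succ, ih, pow_succ (u * v)]
    simp only [mul_assoc]

theorem qn_mul_comm {q : Seminorm ℂ B} (hq : ∀ x y, q (x * y) ≤ q x * q y)
    {u v : Unitization ℂ B} (h : QN q (u * v)) : QN q (v * u) := by
  apply qn_of_bound
  intro ε hε
  obtain ⟨N, hN⟩ := h ε hε
  refine ⟨q1 q v * q1 q u / ε, N + 1, fun k hk => ?_⟩
  obtain ⟨j, rfl⟩ := Nat.exists_eq_add_of_le hk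
  have h1 := hN (N + j) (by omega)
  rw [show N + 1 + j = (N + j) + 1 by omega, mul_pow_succ_comm]
  calc q1 q (v * (u * v) ^ (N + j) * u) ≤ q1 q v * q1 q ((u * v) ^ (N + j)) * q1 q u :=
        (q1_mul hq _ _).trans (mul_le_mul_of_nonneg_right (q1_mul hq _ _) (apply_nonneg _ _))
    _ ≤ q1 q v * ε ^ (N + j) * q1 q u := by
        have := apply_nonneg (q1 q) v
        have := apply_nonneg (q1 q) u
        gcongr
    _ = q1 q v * q1 q u / ε * ε ^ (N + j + 1) := by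
        rw [pow_succ]; field_simp

theorem qn_of_sq {q : Seminorm ℂ B} (hq : ∀ x y, q (x * y) ≤ q x * q y)
    {u : Unitization ℂ B} (h : QN q (u ^ 2)) : QN q u := by
  apply qn_of_bound
  intro ε hε
  obtain ⟨N, hN⟩ := h (ε ^ 2) (by positivity)
  refine ⟨1 + q1 q u / ε, 2 * N + 1, fun k hk => ?_⟩
  have hnn := apply_nonneg (q1 q) u
  rcases Nat.even_or_odd' k with ⟨j, hj | hj⟩
  · have h1 := hN j (by omega)
    rw [← pow_mul, ← pow_mul] at h1
    rw [hj]
    calc q1 q (u ^ (2 * j)) ≤ 1 * ε ^ (2 * j) := by rw [one_mul]; exact h1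
      _ ≤ (1 + q1 q u / ε) * ε ^ (2 * j) := by
        apply mul_le_mul_of_nonneg_right _ (by positivity)
        have : 0 ≤ q1 q u / ε := by positivity
        linarith
  · have h1 := hN j (by omega)
    rw [← pow_mul, ← pow_mul] at h1
    rw [hj, pow_succ]
    calc q1 q (u ^ (2 * j) * u) ≤ q1 q (u ^ (2 * j)) * q1 q u := q1_mul hq _ _
      _ ≤ ε ^ (2 * j) * q1 q u := by gcongr
      _ = (q1 q u / ε) * ε ^ (2 * j + 1) := by rw [pow_succ]; field_simp
      _ ≤ (1 + q1 q u / ε) * ε ^ (2 * j + 1) := by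
        apply mul_le_mul_of_nonneg_right _ (by positivity)
        linarith

theorem qn_mono {q r : Seminorm ℂ B} (h : q ≤ r) {u : Unitization ℂ B} (hu : QN r u) :
    QN q u := by
  intro ε hε
  obtain ⟨N, hN⟩ := hu ε hε
  refine ⟨N, fun k hk => le_trans ?_ (hN k hk)⟩
  rw [q1_apply, q1_apply]
  have := h (u ^ k).snd
  linarith

theorem qn_congr {q : Seminorm ℂ B} (hq : ∀ x y, q (x * y) ≤ q x * q y)
    {u v : Unitization ℂ B} (h : q1 q (u - v) = 0) (hu : QN q u) : QN q v := by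
  obtain ⟨𝔅, _, _, _, L, hL⟩ := exists_banach hq
  rw [qn_iff L hL] at hu ⊢
  have h1 : L u = L v := by
    rw [← sub_eq_zero, ← map_sub, ← norm_eq_zero, hL, h]
  rwa [← h1]

theorem q1_idem_pow {q : Seminorm ℂ B} (hq : ∀ x y, q (x * y) ≤ q x * q y)
    {c : Unitization ℂ B} (h : q1 q (c * c - c) = 0) (k : ℕ) : q1 q (c ^ (k + 1) - c) = 0 := by
  induction k with
  | zero => simp
  | succ k ih =>
    apply le_antisymm _ (apply_nonneg _ _)
    have h1 : c ^ (k + 1 + 1) - c = (c ^ (k + 1) - c) * c + (c * c - c) := by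
      rw [sub_mul, ← pow_succ]; abel
    rw [h1]
    refine (map_add_le_add _ _ _).trans ?_
    have h2 := q1_mul hq (c ^ (k + 1) - c) c
    rw [ih, zero_mul] at h2
    linarith

theorem q1_eq_zero_of_idem {q : Seminorm ℂ B} (hq : ∀ x y, q (x * y) ≤ q x * q y)
    {c : Unitization ℂ B} (h : q1 q (c * c - c) = 0) (hc : QN q c) : q1 q c = 0 := by
  apply le_antisymm _ (apply_nonneg _ _)
  apply le_of_forall_pos_le_add
  intro ε hε
  rw [zero_add]
  obtain ⟨N, hN⟩ := hc (1 / 2) (by norm_num)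
  obtain ⟨M, hM⟩ := exists_pow_lt_of_lt_one hε (show (1 / 2 : ℝ) < 1 by norm_num)
  have h1 := hN (max N M + 1) (by have := le_max_left N M; omega)
  have h2 := q1_idem_pow hq h (max N M)
  have h3 : c = c ^ (max N M + 1) - (c ^ (max N M + 1) - c) := by abel
  have h4 : q1 q c ≤ q1 q (c ^ (max N M + 1)) := by
    conv_lhs => rw [h3]
    refine (map_sub_le_add _ _ _).trans ?_
    rw [h2, add_zero]
  refine h4.trans (h1.trans ?_)
  refine le_trans ?_ hM.le
  exact pow_le_pow_of_le_one (by norm_num) (by norm_num) (by have := le_max_right N M; omega)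

/-- closedness of quasinilpotency, abstract form -/
theorem qn_of_approx {q : Seminorm ℂ B} (hq : ∀ x y, q (x * y) ≤ q x * q y)
    {u : Unitization ℂ B} {F : Set ℂ} (hF : F.Finite)
    (h : ∀ z : ℂ, z ∉ F → LI q (algebraMap ℂ _ z - u))
    (ha : ∀ ε > 0, ∃ u', q1 q (u - u') < ε ∧ QN q u') : QN q u := by
  obtain ⟨𝔅, _, _, _, L, hL⟩ := exists_banach hq
  rw [qn_iff L hL]
  apply qn_of_spectrum
  refine spectrum_zero_of_approx hF (spectrum_subset_of_left hF ?_) ?_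
  · intro z hz
    obtain ⟨v, hv⟩ := exists_left_inv_of_LI L hL (h z hz)
    refine ⟨v, ?_⟩
    rwa [map_sub, AlgHom.commutes] at hv
  · intro ε hε
    obtain ⟨u', hu', hu'2⟩ := ha ε hε
    refine ⟨L u', ?_, spectrum_of_qn ((qn_iff L hL _).1 hu'2)⟩
    rw [← map_sub, hL]
    exact hu'

end LevelQN

end Pool.Agent.Lib.MP_74fee8_an
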