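import Pool.Agent.Lib.MP_74fee8_an.FiniteMany

set_option autoImplicit false

open Filter Topology Cardinal

namespace Pool.Agent.Lib.MP_74fee8_an

namespace Rep

variable {B : Type} [NonUnitalRing B] [Module ℂ B] {q q' : Seminorm ℂ B}

theorem ker_left (R : Rep B q) : ∀ b x, x ∈ LinearMap.ker R.ρ → b * x ∈ LinearMap.ker R.ρ := by
  intro b x hx
  rw [LinearMap.mem_ker] at hx ⊢
  ext e
  rw [R.map_mul, hx]
  simp

theorem ker_right (R : Rep B q) : ∀ b x, x ∈ LinearMap.ker R.ρ → x * b ∈ LinearMap.ker R.ρ := by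
  intro b x hx
  rw [LinearMap.mem_ker] at hx ⊢
  ext e
  rw [R.map_mul, hx]
  simp

theorem ker_ne_top (R : Rep B q) : LinearMap.ker R.ρ ≠ ⊤ := by
  intro h
  obtain ⟨a, ha⟩ := R.simple R.e₀ R.e₀_ne R.e₀
  have h1 : a ∈ LinearMap.ker R.ρ := by rw [h]; trivial
  rw [LinearMap.mem_ker] at h1
  apply R.e₀_ne
  rw [← ha, h1]
  rfl

theorem ker_max (R : Rep B q) [FiniteDimensional ℂ R.E] (I : Submodule ℂ B)
    (hIl : ∀ b x, x ∈ I → b * x ∈ I) (hIr : ∀ b x, x ∈ I → x * b ∈ I)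
    (hker : LinearMap.ker R.ρ ≤ I) (hI : ∃ a ∈ I, R.ρ a ≠ 0) : I = ⊤ := by
  obtain ⟨a, ha, haid⟩ := R.surj I hIl (R.nondeg I hIr hI) LinearMap.id
  rw [eq_top_iff]
  intro b _
  have h1 : b - b * a ∈ I := by
    apply hker
    rw [LinearMap.mem_ker]
    ext e
    rw [map_sub, LinearMap.sub_apply, R.map_mul, haid]
    simp
  have h2 := I.add_mem h1 (hIl b a ha)
  rwa [sub_add_cancel] at h2

theorem exists_id (R0 : Rep B q) (R : Rep B q') [FiniteDimensional ℂ R0.E]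
    [FiniteDimensional ℂ R.E] (hne : LinearMap.ker R.ρ ≠ LinearMap.ker R0.ρ) :
    ∃ a ∈ LinearMap.ker R0.ρ, R.ρ a = LinearMap.id := by
  apply R.surj _ R0.ker_left
  apply R.nondeg _ R0.ker_right
  by_contra hcon
  push Not at hcon
  have h1 : LinearMap.ker R0.ρ ≤ LinearMap.ker R.ρ := fun a ha => hcon a ha
  by_cases h2 : ∃ a ∈ LinearMap.ker R.ρ, R0.ρ a ≠ 0
  · exact R.ker_ne_top (R0.ker_max _ R.ker_left R.ker_right h1 h2)
  · push Not at h2
    exact hne (le_antisymm (fun a ha => h2 a ha) h1)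

theorem approx_id (R0 : Rep B q) (R : Rep B q') [FiniteDimensional ℂ R0.E]
    [FiniteDimensional ℂ R.E] (hne : LinearMap.ker R.ρ ≠ LinearMap.ker R0.ρ)
    {r : Seminorm ℂ B} (hr : ∀ x y, r (x * y) ≤ r x * r y) (hd : qcl r (LinearMap.ker R.ρ) = ⊤)
    (w : B) {ε : ℝ} (hε : 0 < ε) :
    ∃ a ∈ LinearMap.ker R0.ρ, R.ρ a = LinearMap.id ∧ r (w * a) ≤ ε := by
  obtain ⟨a, ha, haid⟩ := exists_id R0 R hne
  have h1 : a ∈ qcl r (LinearMap.ker R.ρ) := by rw [hd]; trivial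
  have hpos := apply_nonneg r (w * a)
  obtain ⟨x, hx, hx2⟩ := h1 (ε / (r (w * a) + 1)) (by positivity)
  refine ⟨a * (a - x), R0.ker_right _ _ ha, ?_, ?_⟩
  · rw [LinearMap.mem_ker] at hx
    ext e
    rw [R.map_mul, map_sub, haid, hx]
    simp
  · rw [← mul_assoc]
    refine (hr _ _).trans ?_
    rw [lt_div_iff₀ (by positivity)] at hx2
    have := apply_nonneg r (a - x)
    nlinarith

theorem maxLeft_ann (R : Rep B q) : MaxLeft (LinearMap.ker (R.ρ.flip R.e₀)) := by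
  obtain ⟨u, hu⟩ := R.simple R.e₀ R.e₀_ne R.e₀
  have hm : ∀ a, a ∈ LinearMap.ker (R.ρ.flip R.e₀) ↔ R.ρ a R.e₀ = 0 := fun a => Iff.rfl
  refine ⟨?_, ⟨u, ?_⟩, ?_, ?_⟩
  · intro b x hx
    rw [hm] at hx ⊢
    rw [R.map_mul, hx, map_zero]
  · intro b
    rw [hm, map_sub, LinearMap.sub_apply, R.map_mul, hu, sub_self]
  · intro h
    have h1 : u ∈ LinearMap.ker (R.ρ.flip R.e₀) := by rw [h]; trivial
    rw [hm, hu] at h1
    exact R.e₀_ne h1
  · intro L' hL' hle
    by_cases h : L' ≤ LinearMap.ker (R.ρ.flip R.e₀)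
    · left; exact le_antisymm h hle
    · right
      rw [SetLike.not_le_iff_exists] at h
      obtain ⟨x, hx, hx2⟩ := h
      rw [hm] at hx2
      rw [eq_top_iff]
      intro b _
      obtain ⟨c, hc⟩ := R.simple _ hx2 (R.ρ b R.e₀)
      have h1 : b - c * x ∈ L' := by
        apply hle
        rw [hm, map_sub, LinearMap.sub_apply, R.map_mul, hc, sub_self]
      have h2 := L'.add_mem h1 (hL' c x hx)
      rwa [sub_add_cancel] at h2

end Rep

theorem qclosed_of_le {B : Type} [NonUnitalRing B] [Module ℂ B] {q : Seminorm ℂ B}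
    {P L : Submodule ℂ B} (hPL : P ≤ L) (hP : QClosed q P)
    [hfin : FiniteDimensional ℂ (B ⧸ P)] : QClosed q L := by
  letI : SeminormedAddCommGroup B := AddGroupSeminorm.toSeminormedAddCommGroup q.toAddGroupSeminorm
  have hn : ∀ b : B, ‖b‖ = q b := fun b => rfl
  letI : NormedSpace ℂ B := ⟨fun a b => by rw [hn, hn, map_smul_eq_mul]⟩
  haveI : IsClosed (P : Set B) := by
    rw [← closure_subset_iff_isClosed]
    intro x hx
    by_contra hxL
    obtain ⟨ε, hε, h2⟩ := hP x hxL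
    rw [Metric.mem_closure_iff] at hx
    obtain ⟨l, hl, hl2⟩ := hx ε hε
    rw [dist_eq_norm, hn] at hl2
    exact absurd (h2 l hl) (not_le.2 hl2)
  have h1 : IsClosed ((L.map P.mkQ : Submodule ℂ (B ⧸ P)) : Set (B ⧸ P)) :=
    Submodule.closed_of_finiteDimensional _
  have hcont : Continuous (P.mkQ : B → B ⧸ P) := by
    refine AddMonoidHomClass.continuous_of_bound (P.mkQ) 1 (fun x => ?_)
    rw [one_mul]
    exact Submodule.Quotient.norm_mk_le P x
  have h2 : IsClosed (L : Set B) := by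
    have h3 : (L : Set B) = (P.mkQ : B → B ⧸ P) ⁻¹' (L.map P.mkQ : Submodule ℂ (B ⧸ P)) := by
      ext x
      constructor
      · intro hx
        exact ⟨x, hx, rfl⟩
      · rintro ⟨y, hy, hyx⟩
        have h4 : y - x ∈ P := (Submodule.Quotient.eq P).1 hyx
        have h5 := L.sub_mem hy (hPL h4)
        rwa [sub_sub_cancel] at h5
    rw [h3]
    exact h1.preimage hcont
  intro x hx
  have h3 : (L : Set B)ᶜ ∈ 𝓝 x := h2.isOpen_compl.mem_nhds hx
  rw [Metric.mem_nhds_iff] at h3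
  obtain ⟨ε, hε, h4⟩ := h3
  refine ⟨ε, hε, fun l hl => ?_⟩
  by_contra hcon
  push Not at hcon
  have h5 : l ∈ Metric.ball x ε := by
    rw [Metric.mem_ball, dist_comm, dist_eq_norm, hn]
    exact hcon
  exact h4 h5 hl

theorem Rep.dichotomy {B : Type} [NonUnitalRing B] [Module ℂ B] [IsScalarTower ℂ B B]
    [SMulCommClass ℂ B B] {q r : Seminorm ℂ B}
    (R : Rep B q) [FiniteDimensional ℂ R.E] (hr : ∀ x y, r (x * y) ≤ r x * r y) :
    qcl r (LinearMap.ker R.ρ) = ⊤ ∨ ∃ R' : Rep B r, LinearMap.ker R'.ρ = LinearMap.ker R.ρ := by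
  by_cases h : ∃ a ∈ qcl r (LinearMap.ker R.ρ), R.ρ a ≠ 0
  · left
    exact R.ker_max _ (qcl_left hr R.ker_left) (qcl_right hr R.ker_right) (le_qcl _ _) h
  · right
    push Not at h
    have h1 : QClosed r (LinearMap.ker R.ρ) := by
      rw [qclosed_iff]
      exact le_antisymm (fun a ha => h a ha) (le_qcl _ _)
    have hfin : FiniteDimensional ℂ (B ⧸ LinearMap.ker R.ρ) :=
      LinearEquiv.finiteDimensional (LinearMap.quotKerEquivRange R.ρ).symm
    have hle : LinearMap.ker R.ρ ≤ LinearMap.ker (R.ρ.flip R.e₀) := by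
      intro a ha
      rw [LinearMap.mem_ker] at ha ⊢
      rw [LinearMap.flip_apply, ha]
      rfl
    have h2 : QClosed r (LinearMap.ker (R.ρ.flip R.e₀)) := qclosed_of_le hle h1
    obtain ⟨R', hR'⟩ := exists_rep hr R.maxLeft_ann h2
    refine ⟨R', R'.ker_eq_of_ann_le R R'.e₀_ne R.e₀_ne (fun b hb => ?_)⟩
    exact (hR' b).2 hb

end Pool.Agent.Lib.MP_74fee8_an
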