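import Pool.Agent.Lib.MP_74fee8_an.ClosedGraph

set_option autoImplicit false

open Filter Topology

namespace Pool.Agent.Lib.MP_74fee8_an

theorem eq_of_mem_sep {A B C : Type} [TopologicalSpace A] [Zero A] [TopologicalSpace B] [Zero B]
    [TopologicalSpace C] [T2Space C] {T : A → B} (hT : T 0 = 0) {f : B → C} (hf : Continuous f)
    (hfT : Continuous fun x => f (T x)) {b : B} (hb : b ∈ Sep T) : f b = f 0 := by
  by_contra hne
  obtain ⟨V, W, hV, hW, hbV, h0W, hVW⟩ := t2_separation hne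
  have h1 : (fun x => f (T x)) ⁻¹' W ∈ 𝓝 (0 : A) := by
    apply hfT.continuousAt.preimage_mem_nhds
    apply hW.mem_nhds
    simpa [hT] using h0W
  have h2 : f ⁻¹' V ∈ 𝓝 b := hf.continuousAt.preimage_mem_nhds (hV.mem_nhds hbV)
  obtain ⟨x, hx1, hx2⟩ := hb _ h1 _ h2
  exact Set.disjoint_left.1 hVW hx2 hx1

section SepIdeal

variable {A : Type} [NonUnitalRing A] [Module ℂ A] [TopologicalSpace A] [IsTopologicalRing A]
  [ContinuousSMul ℂ A]
variable {B : Type} [NonUnitalRing B] [Module ℂ B] [TopologicalSpace B] [IsTopologicalRing B]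
  [ContinuousSMul ℂ B]

omit [IsTopologicalRing B] [ContinuousSMul ℂ B] [Module ℂ B] [Module ℂ A] [ContinuousSMul ℂ A]
  [IsTopologicalRing A] in
theorem isClosed_sep (T : A → B) : IsClosed (Sep T) := by
  rw [← closure_subset_iff_isClosed]
  intro b hb U hU V hV
  obtain ⟨W, hWV, hWo, hbW⟩ := mem_nhds_iff.1 hV
  rw [mem_closure_iff] at hb
  obtain ⟨c, hcW, hc⟩ := hb W hWo hbW
  obtain ⟨x, hx, hx2⟩ := hc U hU W (hWo.mem_nhds hcW)
  exact ⟨x, hx, hWV hx2⟩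

omit [IsTopologicalRing B] [ContinuousSMul ℂ B] [Module ℂ B] [Module ℂ A] [ContinuousSMul ℂ A]
  [IsTopologicalRing A] in
theorem zero_mem_sep {T : A → B} (hT : T 0 = 0) : (0 : B) ∈ Sep T := by
  intro U hU V hV
  exact ⟨0, mem_of_mem_nhds hU, by rw [hT]; exact mem_of_mem_nhds hV⟩

/-- The separating space of a surjective homomorphism is a two-sided ideal. -/
def sepSub (T : A →ₗ[ℂ] B) : Submodule ℂ B where
  carrier := Sep T
  zero_mem' := zero_mem_sep (map_zero T)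
  add_mem' := by
    intro s t hs ht U hU V hV
    obtain ⟨U1, hU1, U2, hU2, hU12⟩ : ∃ U1 ∈ 𝓝 (0 : A), ∃ U2 ∈ 𝓝 (0 : A),
        ∀ x ∈ U1, ∀ y ∈ U2, x + y ∈ U := by
      have hc : Tendsto (fun z : A × A => z.1 + z.2) (𝓝 0 ×ˢ 𝓝 0) (𝓝 (0 : A)) := by
        have := (continuous_add (M := A)).tendsto (0, 0)
        rwa [nhds_prod_eq, add_zero] at this
      have h1 := hc hU
      rw [mem_map, mem_prod_iff] at h1
      obtain ⟨U1, hU1, U2, hU2, h2⟩ := h1
      exact ⟨U1, hU1, U2, hU2, fun x hx y hy => h2 (Set.mk_mem_prod hx hy)⟩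
    obtain ⟨V1, hV1, V2, hV2, hV12⟩ : ∃ V1 ∈ 𝓝 s, ∃ V2 ∈ 𝓝 t,
        ∀ x ∈ V1, ∀ y ∈ V2, x + y ∈ V := by
      have hc : Tendsto (fun z : B × B => z.1 + z.2) (𝓝 s ×ˢ 𝓝 t) (𝓝 (s + t)) := by
        have := (continuous_add (M := B)).tendsto (s, t)
        rwa [nhds_prod_eq] at this
      have h1 := hc hV
      rw [mem_map, mem_prod_iff] at h1
      obtain ⟨U1, hU1, U2, hU2, h2⟩ := h1
      exact ⟨U1, hU1, U2, hU2, fun x hx y hy => h2 (Set.mk_mem_prod hx hy)⟩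
    obtain ⟨x, hx, hx2⟩ := hs U1 hU1 V1 hV1
    obtain ⟨y, hy, hy2⟩ := ht U2 hU2 V2 hV2
    refine ⟨x + y, hU12 x hx y hy, ?_⟩
    rw [map_add]
    exact hV12 _ hx2 _ hy2
  smul_mem' := by
    intro c s hs U hU V hV
    have h1 : (fun x : A => c • x) ⁻¹' U ∈ 𝓝 (0 : A) := by
      apply (continuous_const_smul c).continuousAt.preimage_mem_nhds
      simpa using hU
    have h2 : (fun x : B => c • x) ⁻¹' V ∈ 𝓝 s :=
      (continuous_const_smul c).continuousAt.preimage_mem_nhds hV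
    obtain ⟨x, hx, hx2⟩ := hs _ h1 _ h2
    exact ⟨c • x, hx, by rw [map_smul]; exact hx2⟩

theorem mem_sepSub {T : A →ₗ[ℂ] B} {b : B} : b ∈ sepSub T ↔ b ∈ Sep T := Iff.rfl

theorem isClosed_sepSub (T : A →ₗ[ℂ] B) : IsClosed (sepSub T : Set B) := isClosed_sep T

theorem mul_left_mem_sepSub {T : A →ₗ[ℂ] B} (hmul : ∀ x y, T (x * y) = T x * T y)
    (hsurj : Function.Surjective T) (b : B) {s : B} (hs : s ∈ sepSub T) : b * s ∈ sepSub T := by
  obtain ⟨a, rfl⟩ := hsurj b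
  intro U hU V hV
  have h1 : (fun x : A => a * x) ⁻¹' U ∈ 𝓝 (0 : A) := by
    apply (continuous_const_mul a).continuousAt.preimage_mem_nhds
    simpa using hU
  have h2 : (fun x : B => T a * x) ⁻¹' V ∈ 𝓝 s :=
    (continuous_const_mul (T a)).continuousAt.preimage_mem_nhds hV
  obtain ⟨x, hx, hx2⟩ := hs _ h1 _ h2
  exact ⟨a * x, hx, by rw [hmul]; exact hx2⟩

theorem mul_right_mem_sepSub {T : A →ₗ[ℂ] B} (hmul : ∀ x y, T (x * y) = T x * T y)
    (hsurj : Function.Surjective T) (b : B) {s : B} (hs : s ∈ sepSub T) : s * b ∈ sepSub T := by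
  obtain ⟨a, rfl⟩ := hsurj b
  intro U hU V hV
  have h1 : (fun x : A => x * a) ⁻¹' U ∈ 𝓝 (0 : A) := by
    apply (continuous_mul_const a).continuousAt.preimage_mem_nhds
    simpa using hU
  have h2 : (fun x : B => x * T a) ⁻¹' V ∈ 𝓝 s :=
    (continuous_mul_const (T a)).continuousAt.preimage_mem_nhds hV
  obtain ⟨x, hx, hx2⟩ := hs _ h1 _ h2
  exact ⟨x * a, hx, by rw [hmul]; exact hx2⟩

end SepIdeal

end Pool.Agent.Lib.MP_74fee8_an
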